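import Pool.Agent.Helper42.Weiss.Basic

open Set Filter Topology MeasureTheory

namespace Pool.Agent.Helper42.Weiss

/-- Monotone families with `limsup (a ε) ≤ liminf (a ε')` for `ε' < ε` converge outside a
countable set of parameters. -/
theorem countable_bad (a : ℝ → ℕ → ℝ)
    (hb : ∀ ε > 0, ∃ C, ∀ T, 0 ≤ a ε T ∧ a ε T ≤ C)
    (hcmp : ∀ ε' ε, 0 < ε' → ε' < ε → ∀ η > 0, ∃ N : ℕ, ∀ T₁ ≥ N, ∃ T₀ : ℕ, ∀ T ≥ T₀,
      a ε T₁ - η ≤ a ε' T) :
    {ε : ℝ | 0 < ε ∧ ¬ ∃ L : ℝ, Tendsto (a ε) atTop (𝓝 L)}.Countable := by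
  have hbu : ∀ ε > 0, IsBoundedUnder (· ≤ ·) atTop (a ε) := by
    intro ε hε
    obtain ⟨C, hC⟩ := hb ε hε
    exact ⟨C, by simp only [eventually_map]; exact Eventually.of_forall (fun T => (hC T).2)⟩
  have hbl : ∀ ε > 0, IsBoundedUnder (· ≥ ·) atTop (a ε) := by
    intro ε hε
    obtain ⟨C, hC⟩ := hb ε hε
    exact ⟨0, by simp only [eventually_map]; exact Eventually.of_forall (fun T => (hC T).1)⟩
  have hls : ∀ ε' ε, 0 < ε' → ε' < ε → limsup (a ε) atTop ≤ liminf (a ε') atTop := by
    intro ε' ε hε' hlt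
    have hε := hε'.trans hlt
    refine le_of_forall_pos_le_add (fun η hη => ?_)
    obtain ⟨N, hN⟩ := hcmp ε' ε hε' hlt η hη
    refine limsup_le_of_le ((hbl ε hε).isCoboundedUnder_le) ?_
    filter_upwards [eventually_ge_atTop N] with T₁ hT₁
    obtain ⟨T₀, hT₀⟩ := hN T₁ hT₁
    have : a ε T₁ - η ≤ liminf (a ε') atTop := by
      refine le_liminf_of_le ((hbu ε' hε').isCoboundedUnder_ge) ?_
      filter_upwards [eventually_ge_atTop T₀] with T hT using hT₀ T hT
    linarith
  have hlt : ∀ ε, (0 < ε ∧ ¬ ∃ L : ℝ, Tendsto (a ε) atTop (𝓝 L)) →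
      liminf (a ε) atTop < limsup (a ε) atTop := by
    rintro ε ⟨hε, hne⟩
    by_contra hcon
    rw [not_lt] at hcon
    have h1 : liminf (a ε) atTop ≤ limsup (a ε) atTop := liminf_le_limsup (hbu ε hε) (hbl ε hε)
    exact hne ⟨_, tendsto_of_liminf_eq_limsup rfl (le_antisymm hcon h1) (hbu ε hε) (hbl ε hε)⟩
  have hq : ∀ ε : {ε : ℝ | 0 < ε ∧ ¬ ∃ L : ℝ, Tendsto (a ε) atTop (𝓝 L)},
      ∃ q : ℚ, liminf (a ε) atTop < q ∧ (q : ℝ) < limsup (a ε) atTop :=
    fun ε => exists_rat_btwn (hlt ε.1 ε.2)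
  choose q hq1 hq2 using hq
  have hinj : Function.Injective q := by
    intro x y hxy
    by_contra hne
    have key : ∀ x y : {ε : ℝ | 0 < ε ∧ ¬ ∃ L : ℝ, Tendsto (a ε) atTop (𝓝 L)},
        (x : ℝ) < y → q x = q y → False := by
      intro x y hlt' hxy'
      have h1 := hls x y x.2.1 hlt'
      have h2 := hq1 x
      have h3 := hq2 y
      rw [← hxy'] at h3
      linarith
    rcases lt_trichotomy (x : ℝ) y with h | h | h
    · exact key x y h hxy
    · exact hne (Subtype.ext h)
    · exact key y x h hxy.symm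
  exact Set.countable_coe_iff.1 (Function.Injective.countable hinj)

/-- A devil's staircase: `φ` is nondecreasing, 1-Lipschitz, comparable with the identity and
flat to the right of every point of the countable set `B`; moreover the right end points of the
level sets avoid `B`. -/
theorem exists_staircase {B : Set ℝ} (hB : B.Countable) (hpos : ∀ b ∈ B, 0 < b) :
    ∃ φ : ℝ → ℝ, (∀ s t, 0 ≤ s → s ≤ t → φ s ≤ φ t) ∧ (∀ s t, 0 ≤ s → s ≤ t → φ t ≤ φ s + (t - s)) ∧
      (∀ s, 0 ≤ s → 3 / 4 * s ≤ φ s) ∧ (∀ s, 0 ≤ s → φ s ≤ s) ∧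
      (∀ s ∈ B, ∃ s' > s, φ s' = φ s) := by
  classical
  rcases B.eq_empty_or_nonempty with h0 | hne
  · subst h0
    refine ⟨fun s => s, fun s t _ h => h, fun s t _ _ => by linarith, fun s hs => by linarith,
      fun s _ => le_rfl, fun s hs => absurd hs (by simp)⟩
  obtain ⟨b, hb⟩ := hB.exists_eq_range hne
  have hbpos : ∀ k, 0 < b k := fun k => hpos _ (by rw [hb]; exact ⟨k, rfl⟩)
  set r : ℕ → ℝ := fun k => b k / 2 ^ (k + 5) with hr
  have hrpos : ∀ k, 0 < r k := fun k => by
    have := hbpos k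
    positivity
  have hrle : ∀ k, r k ≤ b k / 2 := by
    intro k
    have h1 : (2 : ℝ) ≤ 2 ^ (k + 5) := by
      calc (2 : ℝ) = 2 ^ 1 := by norm_num
        _ ≤ 2 ^ (k + 5) := pow_le_pow_right₀ (by norm_num) (by omega)
    exact div_le_div_of_nonneg_left (hbpos k).le (by norm_num) h1
  set O : Set ℝ := ⋃ k, Ioo (b k - r k) (b k + r k) with hO
  have hOm : MeasurableSet O := MeasurableSet.iUnion (fun k => measurableSet_Ioo)
  set φ : ℝ → ℝ := fun s => (volume (Icc 0 s \ O)).toReal with hφ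
  have hfin : ∀ s : ℝ, volume (Icc 0 s \ O) ≠ ⊤ := fun s =>
    (lt_of_le_of_lt (measure_mono diff_subset) (by simp [Real.volume_Icc])).ne
  have hle : ∀ s, 0 ≤ s → φ s ≤ s := by
    intro s hs
    have h1 : volume (Icc 0 s \ O) ≤ volume (Icc 0 s) := measure_mono diff_subset
    rw [Real.volume_Icc] at h1
    have h2 := ENNReal.toReal_mono (by simp) h1
    rwa [ENNReal.toReal_ofReal (by linarith), sub_zero] at h2
  refine ⟨φ, ?_, ?_, ?_, hle, ?_⟩
  · intro s t hs hst
    refine ENNReal.toReal_mono (hfin t) (measure_mono ?_)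
    exact diff_subset_diff_left (Icc_subset_Icc_right hst)
  · intro s t hs hst
    have h1 : Icc 0 t \ O ⊆ (Icc 0 s \ O) ∪ Icc s t := by
      rintro u ⟨⟨hu1, hu2⟩, hu3⟩
      rcases le_total u s with h | h
      · exact Or.inl ⟨⟨hu1, h⟩, hu3⟩
      · exact Or.inr ⟨h, hu2⟩
    have h2 : volume (Icc 0 t \ O) ≤ volume (Icc 0 s \ O) + volume (Icc s t) :=
      (measure_mono h1).trans (measure_union_le _ _)
    rw [Real.volume_Icc] at h2
    have h3 := ENNReal.toReal_mono (by simp [hfin s]) h2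
    rw [ENNReal.toReal_add (hfin s) (by simp), ENNReal.toReal_ofReal (by linarith)] at h3
    exact h3
  · intro s hs
    have h1 : Icc 0 s ⊆ (Icc 0 s \ O) ∪ ⋃ k, (Ioo (b k - r k) (b k + r k) ∩ Icc 0 s) := by
      intro u hu
      by_cases h : u ∈ O
      · right
        rw [hO, mem_iUnion] at h
        obtain ⟨k, hk⟩ := h
        exact mem_iUnion.2 ⟨k, hk, hu⟩
      · exact Or.inl ⟨hu, h⟩
    have h2 : ∀ k, volume (Ioo (b k - r k) (b k + r k) ∩ Icc 0 s) ≤
        ENNReal.ofReal (s / 8 * (1 / 2) ^ k) := by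
      intro k
      by_cases h : b k - r k ≤ s
      · have h3 : b k ≤ 2 * s := by
          have := hrle k
          linarith
        refine (measure_mono inter_subset_left).trans ?_
        rw [Real.volume_Ioo]
        refine ENNReal.ofReal_le_ofReal ?_
        have h4 : b k + r k - (b k - r k) = 2 * (b k / 2 ^ (k + 5)) := by rw [hr]; ring
        rw [h4]
        calc 2 * (b k / 2 ^ (k + 5)) ≤ 2 * (2 * s / 2 ^ (k + 5)) := by
              gcongr
          _ = s / 8 * (1 / 2) ^ k := by
              rw [pow_add, one_div, inv_pow]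
              field_simp
              ring
      · rw [not_le] at h
        have : Ioo (b k - r k) (b k + r k) ∩ Icc 0 s = ∅ := by
          ext u
          simp only [mem_inter_iff, mem_Ioo, mem_Icc, mem_empty_iff_false, iff_false]
          rintro ⟨⟨h5, -⟩, -, h6⟩
          linarith
        rw [this]
        simp
    have h3 : volume (⋃ k, (Ioo (b k - r k) (b k + r k) ∩ Icc 0 s)) ≤
        ENNReal.ofReal (s / 4) := by
      refine (measure_iUnion_le _).trans ?_
      refine (ENNReal.tsum_le_tsum h2).trans ?_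
      rw [← ENNReal.ofReal_tsum_of_nonneg (fun k => by positivity)
        ((summable_geometric_two).mul_left _), tsum_mul_left, tsum_geometric_two]
      refine ENNReal.ofReal_le_ofReal ?_
      linarith
    have h4 : volume (Icc 0 s) ≤ volume (Icc 0 s \ O) + ENNReal.ofReal (s / 4) :=
      (measure_mono h1).trans ((measure_union_le _ _).trans (by gcongr))
    rw [Real.volume_Icc] at h4
    have h5 := ENNReal.toReal_mono (by simp [hfin s]) h4
    rw [ENNReal.toReal_add (hfin s) (by simp), ENNReal.toReal_ofReal (by linarith),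
      ENNReal.toReal_ofReal (by linarith)] at h5
    simp only [hφ]
    linarith
  · intro s hs
    rw [hb] at hs
    obtain ⟨k, rfl⟩ := hs
    refine ⟨b k + r k / 2, by linarith [hrpos k], ?_⟩
    have : Icc 0 (b k + r k / 2) \ O = Icc 0 (b k) \ O := by
      ext u
      constructor
      · rintro ⟨⟨h1, h2⟩, h3⟩
        refine ⟨⟨h1, ?_⟩, h3⟩
        by_contra h4
        rw [not_le] at h4
        exact h3 (mem_iUnion.2 ⟨k, by constructor <;> linarith [hrpos k]⟩)
      · rintro ⟨⟨h1, h2⟩, h3⟩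
        exact ⟨⟨h1, by linarith [hrpos k]⟩, h3⟩
    simp only [hφ, this]

/-- **Repair lemma.**  If the separation rate exists for all but countably many `ε` for one
equivalent metric, then it exists for every `ε > 0` for another equivalent metric. -/
theorem repair {X : Type*} [TopologicalSpace X] (F : X → X) {D : X → X → ℝ}
    (hD : IsEquivMetric D) (hc : {ε : ℝ | 0 < ε ∧ ¬ HasSepRate D F ε}.Countable) :
    ∃ D' : X → X → ℝ, IsEquivMetric D' ∧ ∀ ε > 0, HasSepRate D' F ε := by
  obtain ⟨φ, hmono, hlip, hlow, hup, hflat⟩ := exists_staircase hc (fun b hb => hb.1)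
  have hnn : ∀ s, 0 ≤ s → 0 ≤ φ s := fun s hs => le_trans (by positivity) (hlow s hs)
  have hD0 : ∀ x y, 0 ≤ D x y := hD.nonneg
  have hφ0 : φ 0 = 0 := le_antisymm (hup 0 le_rfl) (by simpa using hlow 0 le_rfl)
  have hsub : ∀ a b, 0 ≤ a → 0 ≤ b → Real.sqrt (φ (a + b)) ≤ Real.sqrt (φ a) + Real.sqrt (φ b) := by
    have key : ∀ a b, 0 ≤ b → b ≤ a → Real.sqrt (φ (a + b)) ≤ Real.sqrt (φ a) + Real.sqrt (φ b) := by
      intro a b hb hba
      have ha := hb.trans hba
      rw [Real.sqrt_le_left (by positivity)]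
      have h1 := Real.sq_sqrt (hnn a ha)
      have h2 := Real.sq_sqrt (hnn b hb)
      have h3 : 3 / 4 * b ≤ Real.sqrt (φ a) * Real.sqrt (φ b) := by
        rw [← Real.sqrt_mul (hnn a ha)]
        refine Real.le_sqrt_of_sq_le ?_
        have h4 : 3 / 4 * b ≤ φ a := by linarith [hlow a ha]
        have h5 : 3 / 4 * b ≤ φ b := hlow b hb
        nlinarith [hnn a ha]
      have h6 := hlip a (a + b) ha (by linarith)
      have h7 := hnn b hb
      nlinarith
    intro a b ha hb
    rcases le_total b a with h | h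
    · exact key a b hb h
    · have := key b a ha h
      rw [add_comm b a] at this
      linarith
  refine ⟨fun x y => Real.sqrt (φ (D x y)), ?_, ?_⟩
  · refine ⟨fun x => by simp [hD.self, hφ0], ?_, fun x y => by simp only [hD.symm x y], ?_, ?_⟩
    · intro x y h
      rw [Real.sqrt_eq_zero (hnn _ (hD0 x y))] at h
      have := hlow _ (hD0 x y)
      rw [h] at this
      exact hD.eq_of x y (le_antisymm (by linarith) (hD0 x y))
    · intro x y z
      refine le_trans (Real.sqrt_le_sqrt ?_) (hsub _ _ (hD0 x y) (hD0 y z))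
      exact hmono _ _ (hD0 x z) (hD.triangle x y z)
    · intro x
      refine (hD.basis x).to_hasBasis ?_ ?_
      · intro r hr
        refine ⟨Real.sqrt (3 / 4 * r), Real.sqrt_pos.2 (by positivity), ?_⟩
        intro y hy
        simp only [mem_setOf_eq] at hy ⊢
        rw [Real.sqrt_lt_sqrt_iff (hnn _ (hD0 x y))] at hy
        have := hlow _ (hD0 x y)
        linarith
      · intro r hr
        refine ⟨r ^ 2, by positivity, ?_⟩
        intro y hy
        simp only [mem_setOf_eq] at hy ⊢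
        rw [Real.sqrt_lt' hr]
        exact lt_of_le_of_lt (hup _ (hD0 x y)) hy
  · intro ε hε
    set S : Set ℝ := {s | 0 ≤ s ∧ φ s ≤ ε ^ 2} with hS
    have hSb : BddAbove S := ⟨4 / 3 * ε ^ 2, by
      rintro s ⟨hs, hs'⟩
      have := hlow s hs
      linarith⟩
    have hmem : ε ^ 2 ∈ S := ⟨by positivity, hup _ (by positivity)⟩
    set σ := sSup S with hσ
    have hσpos : 0 < σ := lt_of_lt_of_le (by positivity) (le_csSup hSb hmem)
    have hσle : φ σ ≤ ε ^ 2 := by
      refine le_of_forall_pos_le_add (fun δ hδ => ?_)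
      obtain ⟨s, hs, hs'⟩ := exists_lt_of_lt_csSup ⟨_, hmem⟩ (show σ - δ < σ by linarith)
      have h1 := hlip s σ hs.1 (le_csSup hSb hs)
      have h2 := hs.2
      linarith
    have hiff : ∀ s, 0 ≤ s → (ε < Real.sqrt (φ s) ↔ σ < s) := by
      intro s hs
      rw [Real.lt_sqrt hε.le]
      constructor
      · intro h
        by_contra hcon
        rw [not_lt] at hcon
        have := hmono s σ hs hcon
        linarith
      · intro h
        by_contra hcon
        rw [not_lt] at hcon
        exact absurd (le_csSup hSb (show s ∈ S from ⟨hs, hcon⟩)) (not_le.2 h)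
    have hgood : HasSepRate D F σ := by
      by_contra hbad
      obtain ⟨s', hs', he⟩ := hflat σ ⟨hσpos, hbad⟩
      have : s' ∈ S := ⟨by linarith, by rw [he]; exact hσle⟩
      exact absurd (le_csSup hSb this) (not_le.2 hs')
    obtain ⟨L, hL⟩ := hgood
    refine ⟨L, ?_⟩
    have heq : ∀ T, sepNum (fun x y => Real.sqrt (φ (D x y))) F ε T = sepNum D F σ T := by
      intro T
      unfold sepNum
      congr 1
      ext n
      constructor
      · rintro ⟨E, hE, hs⟩
        refine ⟨E, hE, fun x hx y hy hne => ?_⟩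
        rw [lt_dynDist_iff D F hσpos.le]
        obtain ⟨t, ht, h⟩ := (lt_dynDist_iff _ F hε.le T x y).1 (hs x hx y hy hne)
        exact ⟨t, ht, (hiff _ (hD0 _ _)).1 h⟩
      · rintro ⟨E, hE, hs⟩
        refine ⟨E, hE, fun x hx y hy hne => ?_⟩
        rw [lt_dynDist_iff _ F hε.le]
        obtain ⟨t, ht, h⟩ := (lt_dynDist_iff D F hσpos.le T x y).1 (hs x hx y hy hne)
        exact ⟨t, ht, (hiff _ (hD0 _ _)).2 h⟩
    simp only [heq]
    exact hL

end Pool.Agent.Helper42.Weiss
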