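import Pool.Agent.Helper42.Weiss.Repair

open Set Filter Topology

namespace Pool.Agent.Helper42.Weiss

variable {X : Type*}

theorem hasSepRate_of_isEmpty [IsEmpty X] (D : X → X → ℝ) (F : X → X) (ε : ℝ) :
    HasSepRate D F ε := by
  refine ⟨0, ?_⟩
  have h : ∀ T, sepNum D F ε T = 0 := by
    intro T
    unfold sepNum
    have : {n : ℕ | ∃ E : Finset X, E.card = n ∧
        ∀ x ∈ E, ∀ y ∈ E, x ≠ y → ε < dynDist D F T x y} ⊆ {0} := by
      rintro n ⟨E, hE, -⟩
      rw [Finset.eq_empty_of_isEmpty E] at hE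
      simpa using hE.symm
    refine Nat.le_zero.1 ?_
    exact csSup_le' (fun n hn => (this hn).le)
  simp [h]

/-- Supermultiplicativity up to subexponential errors and a loss in `ε` suffices. -/
theorem criterion [TopologicalSpace X] [CompactSpace X] {D : X → X → ℝ}
    (hD : IsEquivMetric D) (F : X → X)
    (hcrit : Nonempty X → ∀ ε' ε, 0 < ε' → ε' < ε → ∀ η > 0, ∃ N : ℕ, ∀ T₁ ≥ N, ∃ P : ℕ, 0 < P ∧
      (P : ℝ) ≤ (1 + η) * T₁ ∧ ∃ q₀ : ℕ, ∀ q ≥ q₀,
        (q : ℝ) * (Real.log (sepNum D F ε T₁) - η * T₁) ≤ Real.log (sepNum D F ε' (q * P))) :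
    {ε : ℝ | 0 < ε ∧ ¬ HasSepRate D F ε}.Countable := by
  rcases isEmpty_or_nonempty X with hX | hX
  · convert Set.countable_empty using 1
    ext ε
    simp [hasSepRate_of_isEmpty D F ε]
  have hbd : ∀ ε > 0, ∃ C, ∀ T : ℕ, 0 ≤ Real.log (sepNum D F ε T) / T ∧
      Real.log (sepNum D F ε T) / T ≤ C := by
    intro ε hε
    obtain ⟨n, hn, κ, hκ⟩ := exists_label hD hε
    have hlog : 0 ≤ Real.log n := Real.log_natCast_nonneg n
    refine ⟨Real.log n, fun T => ⟨div_nonneg (Real.log_natCast_nonneg _) (Nat.cast_nonneg _), ?_⟩⟩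
    rcases Nat.eq_zero_or_pos T with h0 | h0
    · subst h0
      simpa using hlog
    · rw [div_le_iff₀ (by exact_mod_cast h0)]
      have h1 : (1 : ℝ) ≤ (sepNum D F ε T : ℝ) := by exact_mod_cast one_le_sepNum hD F hε T
      have h2 : (sepNum D F ε T : ℝ) ≤ (n : ℝ) ^ T := by exact_mod_cast sepNum_le_pow hD hε hκ T
      have h3 := Real.log_le_log (by linarith) h2
      rw [Real.log_pow] at h3
      linarith
  refine countable_bad (fun ε T => Real.log (sepNum D F ε T) / T) hbd ?_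
  intro ε' ε hε' hlt η hη
  have hε := hε'.trans hlt
  obtain ⟨C, hC⟩ := hbd ε hε
  have hC0 : 0 ≤ C := (hC 0).1.trans (hC 0).2
  set η₁ := min 1 (η / (2 + C)) with hη₁
  have hη₁pos : 0 < η₁ := lt_min one_pos (by positivity)
  have hη₁le : η₁ * (2 + C) ≤ η := by
    have : η₁ ≤ η / (2 + C) := min_le_right _ _
    rwa [le_div_iff₀ (by positivity)] at this
  have hη₁one : η₁ ≤ 1 := min_le_left _ _
  obtain ⟨N, hN⟩ := hcrit hX ε' ε hε' hlt η₁ hη₁pos
  refine ⟨max N 1, fun T₁ hT₁ => ?_⟩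
  have hT₁N : N ≤ T₁ := (le_max_left _ _).trans hT₁
  have hT₁1 : 1 ≤ T₁ := (le_max_right _ _).trans hT₁
  have hT₁r : (1 : ℝ) ≤ T₁ := by exact_mod_cast hT₁1
  obtain ⟨P, hP, hPle, q₀, hq⟩ := hN T₁ hT₁N
  have hPr : (0 : ℝ) < P := by exact_mod_cast hP
  set A := Real.log (sepNum D F ε T₁) - η₁ * T₁ with hA
  set a := Real.log (sepNum D F ε T₁) / T₁ with ha
  have haA : A = (a - η₁) * T₁ := by
    rw [ha, hA]
    field_simp
  have haC : a ≤ C := (hC T₁).2
  have ha0 : 0 ≤ a := (hC T₁).1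
  rcases le_or_gt A 0 with hA0 | hA0
  · refine ⟨0, fun T _ => ?_⟩
    have h1 : a - η₁ ≤ 0 := by
      rw [haA] at hA0
      by_contra hcon
      rw [not_le] at hcon
      have : 0 < (a - η₁) * T₁ := by positivity
      linarith
    have h2 : η₁ ≤ η := by nlinarith
    have h3 : 0 ≤ Real.log (sepNum D F ε' T) / T :=
      div_nonneg (Real.log_natCast_nonneg _) (Nat.cast_nonneg _)
    show a - η ≤ Real.log (sepNum D F ε' T) / T
    linarith
  · obtain ⟨T₂, hT₂⟩ := exists_nat_gt (A / η₁)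
    refine ⟨max (max T₂ 1) ((q₀ + 1) * P), fun T hT => ?_⟩
    have hTT₂ : T₂ ≤ T := (le_max_left _ _).trans ((le_max_left _ _).trans hT)
    have hT1 : 1 ≤ T := (le_max_right _ _).trans ((le_max_left _ _).trans hT)
    have hTr : (1 : ℝ) ≤ T := by exact_mod_cast hT1
    have hTq : (q₀ + 1) * P ≤ T := (le_max_right _ _).trans hT
    have hqT : q₀ ≤ T / P := by
      rw [Nat.le_div_iff_mul_le hP]
      nlinarith
    have h1 := hq (T / P) hqT
    have h2 : (T / P) * P ≤ T := Nat.div_mul_le_self T P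
    have h3 : sepNum D F ε' ((T / P) * P) ≤ sepNum D F ε' T := sepNum_mono hD hε' le_rfl h2
    have h4 : Real.log (sepNum D F ε' ((T / P) * P)) ≤ Real.log (sepNum D F ε' T) := by
      refine Real.log_le_log ?_ (by exact_mod_cast h3)
      exact_mod_cast one_le_sepNum hD F hε' _
    have h5 : (T : ℝ) / P - 1 ≤ ((T / P : ℕ) : ℝ) := by
      have h6 : T < (T / P + 1) * P := by
        have e1 := Nat.div_add_mod T P
        have e2 := Nat.mod_lt T hP
        nlinarith
      have h7 : (T : ℝ) < ((T / P : ℕ) + 1 : ℝ) * P := by exact_mod_cast h6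
      have h8 : (T : ℝ) / P < (T / P : ℕ) + 1 := by
        rwa [div_lt_iff₀ hPr]
      linarith
    have h6 : ((T : ℝ) / P - 1) * A ≤ Real.log (sepNum D F ε' T) := by
      have : ((T : ℝ) / P - 1) * A ≤ ((T / P : ℕ) : ℝ) * A := by gcongr
      linarith
    show a - η ≤ Real.log (sepNum D F ε' T) / T
    rw [le_div_iff₀ (by linarith)]
    refine le_trans ?_ h6
    -- (a - η) T ≤ (T / P - 1) A
    have h7 : A ≤ η₁ * T := by
      have : A / η₁ < T := hT₂.trans_le (by exact_mod_cast hTT₂)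
      rw [div_lt_iff₀ hη₁pos] at this
      linarith
    have h8 : (a - η₁) * (1 - η₁) ≤ A / P := by
      rw [le_div_iff₀ hPr, haA]
      have haη : 0 < a - η₁ := by
        rw [haA] at hA0
        exact (pos_iff_pos_of_mul_pos hA0).2 (by linarith)
      have h9 : (1 - η₁) * P ≤ T₁ := by
        have h10 : (1 - η₁) * P ≤ (1 - η₁) * ((1 + η₁) * T₁) := by
          have : 0 ≤ 1 - η₁ := by linarith
          gcongr
        nlinarith [mul_nonneg (sq_nonneg η₁) (show (0 : ℝ) ≤ T₁ by linarith)]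
      calc (a - η₁) * (1 - η₁) * P = (a - η₁) * ((1 - η₁) * P) := by ring
        _ ≤ (a - η₁) * T₁ := by gcongr
    have h9 : (T : ℝ) / P * A = T * (A / P) := by ring
    have h10 : T * ((a - η₁) * (1 - η₁)) ≤ (T : ℝ) * (A / P) := by gcongr
    have h11 : a - η₁ * (1 + C) ≤ (a - η₁) * (1 - η₁) := by nlinarith [sq_nonneg η₁]
    nlinarith

end Pool.Agent.Helper42.Weiss
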