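import Pool.Agent.Helper38.Weiss.Api
import Pool.Agent.Helper88.Weiss.Ent
import Pool.Agent.Helper51.Weiss.UC
import Pool.Agent.Helper51.Weiss.Names
import Pool.Agent.Helper49.Weiss.Main

/-!
MP_6b0aee_an, packet W-U: typical sequences are dominated by any sequence of sets of measure
tending to one.
-/

open Set Filter Topology MeasureTheory Pool.Agent.Helper38.Weiss

namespace Pool.Agent.Helper42.Weiss.WU

lemma word_congr {X Y : Type*} {n : ℕ} {P : X → Fin n} {Q : Y → Fin n} {L T : ℕ} {A : Finset ℕ}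
    (hA : Packing L T A) {ξ : ℕ → X} {ζ : ℕ → Y} (h : ∀ t < T, P (ξ t) = Q (ζ t)) :
    ∀ a ∈ A, word P L ξ a = word Q L ζ a := by
  intro a ha
  funext s
  exact h _ (lt_of_lt_of_le (Nat.add_lt_add_left s.2 a) (hA.1 a ha))

lemma near_congr {X Y : Type*} {n : ℕ} {P : X → Fin n} {Q : Y → Fin n} {L T : ℕ} {A : Finset ℕ}
    (hA : Packing L T A) {ξ : ℕ → X} {ζ : ℕ → Y} (h : ∀ t < T, P (ξ t) = Q (ζ t))
    {q : (Fin L → Fin n) → ℝ} {c : ℝ} (hN : Near P L q A ξ T c) : Near Q L q A ζ T c := by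
  unfold Near at hN ⊢
  have h1 : ∀ w, cnt Q L A ζ w = cnt P L A ξ w := by
    intro w
    unfold cnt
    congr 1
    apply Finset.filter_congr
    intro a ha
    rw [word_congr hA h a ha]
  simp only [h1]
  exact hN

lemma word_meas {X : Type*} [MeasurableSpace X] (F : X → X) (hF : Measurable F)
    {n : ℕ} (P : X → Fin n) (hP : Measurable P) (L : ℕ) (a : ℕ) :
    Measurable fun x => word P L (orb F x) a := by
  refine measurable_pi_iff.mpr fun s => ?_
  exact hP.comp (hF.iterate _)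

lemma null_word {X : Type*} [MeasurableSpace X] (ν : Measure X) [IsProbabilityMeasure ν]
    (F : X → X) (hF : MeasurePreserving F ν ν) {n : ℕ} (P : X → Fin n) (hP : Measurable P)
    (L : ℕ) (a : ℕ) : ν {x | ¬ 0 < law ν F P L (word P L (orb F x) a)} = 0 := by
  have h1 : {x | ¬ 0 < law ν F P L (word P L (orb F x) a)} ⊆
      ⋃ w ∈ {w : Fin L → Fin n | law ν F P L w = 0}, F^[a] ⁻¹' {x | ∀ s : Fin L, P (F^[s] x) = w s} := by
    intro x hx
    simp only [mem_setOf_eq, not_lt] at hx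
    simp only [mem_iUnion, mem_preimage, mem_setOf_eq]
    refine ⟨word P L (orb F x) a, le_antisymm hx ENNReal.toReal_nonneg, fun s => ?_⟩
    rw [← Function.iterate_add_apply, Nat.add_comm]
    rfl
  refine measure_mono_null h1 ?_
  rw [measure_biUnion_null_iff (Set.to_countable _)]
  intro w hw
  have hmeas : MeasurableSet {x | ∀ s : Fin L, P (F^[s] x) = w s} := by
    rw [setOf_forall]
    refine MeasurableSet.iInter fun s => ?_
    exact (hP.comp (hF.measurable.iterate _)) (measurableSet_singleton _)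
  rw [(hF.iterate a).measure_preimage hmeas.nullMeasurableSet]
  have h2 : (ν {x | ∀ s : Fin L, P (F^[s] x) = w s}).toReal = 0 := hw
  rcases (ENNReal.toReal_eq_zero_iff _).mp h2 with h3 | h3
  · exact h3
  · exact absurd h3 (measure_ne_top _ _)

lemma tendsto_inter {X : Type*} [MeasurableSpace X] (ν : Measure X) [IsProbabilityMeasure ν]
    (A B C : ℕ → Set X) (hA : ∀ T, MeasurableSet (A T)) (hB : ∀ T, MeasurableSet (B T))
    (hC : ∀ T, MeasurableSet (C T))
    (hA1 : Tendsto (fun T => ν (A T)) atTop (𝓝 1)) (hB1 : Tendsto (fun T => ν (B T)) atTop (𝓝 1))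
    (hC1 : ∀ T, ν (C T)ᶜ = 0) :
    Tendsto (fun T => ν (A T ∩ B T ∩ C T)) atTop (𝓝 1) := by
  have hcA : Tendsto (fun T => ν (A T)ᶜ) atTop (𝓝 0) := by
    have h1 : ∀ T, ν (A T)ᶜ = 1 - ν (A T) := fun T => prob_compl_eq_one_sub (hA T)
    simp only [h1]
    have := ENNReal.Tendsto.sub (tendsto_const_nhds (x := (1 : ENNReal)) (f := atTop)) hA1
      (Or.inl ENNReal.one_ne_top)
    simpa using this
  have hcB : Tendsto (fun T => ν (B T)ᶜ) atTop (𝓝 0) := by
    have h1 : ∀ T, ν (B T)ᶜ = 1 - ν (B T) := fun T => prob_compl_eq_one_sub (hB T)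
    simp only [h1]
    have := ENNReal.Tendsto.sub (tendsto_const_nhds (x := (1 : ENNReal)) (f := atTop)) hB1
      (Or.inl ENNReal.one_ne_top)
    simpa using this
  have hc : Tendsto (fun T => ν (A T ∩ B T ∩ C T)ᶜ) atTop (𝓝 0) := by
    have h2 := hcA.add hcB
    rw [add_zero] at h2
    refine tendsto_of_tendsto_of_tendsto_of_le_of_le tendsto_const_nhds h2 (fun _ => bot_le) ?_
    intro T
    show ν (A T ∩ B T ∩ C T)ᶜ ≤ ν (A T)ᶜ + ν (B T)ᶜ
    rw [compl_inter, compl_inter]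
    calc ν ((A T)ᶜ ∪ (B T)ᶜ ∪ (C T)ᶜ) ≤ ν ((A T)ᶜ ∪ (B T)ᶜ) + ν (C T)ᶜ := measure_union_le _ _
      _ ≤ ν (A T)ᶜ + ν (B T)ᶜ + 0 := add_le_add (measure_union_le _ _) (hC1 T).le
      _ = _ := add_zero _
  have h3 : ∀ T, ν (A T ∩ B T ∩ C T) = 1 - ν (A T ∩ B T ∩ C T)ᶜ := by
    intro T
    have := prob_compl_eq_one_sub (μ := ν) (((hA T).inter (hB T)).inter (hC T)).compl
    rwa [compl_compl] at this
  simp only [h3]
  have := ENNReal.Tendsto.sub (tendsto_const_nhds (x := (1 : ENNReal)) (f := atTop)) hc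
    (Or.inl ENNReal.one_ne_top)
  simpa using this

theorem upgrade {X : Type*} [MeasurableSpace X] (ν : Measure X) [IsProbabilityMeasure ν]
    (F : X → X) (hF : Ergodic F ν) {n : ℕ} (P : X → Fin n) (hP : Measurable P)
    (S S' : Set (X × X))
    (hslack : ∀ x y x' y', (x, y) ∈ S → P x = P x' → P y = P y' → (x', y') ∈ S')
    (hirr : ∀ x, (x, x) ∉ S') (L : ℕ) (hL : 0 < L) (η : ℝ) (hη : 0 < η)
    (hent : ent (law ν F P L) / L ≤ hInf ν F P + η / 4) :
    ∃ δ > 0, ∀ b : ℝ, ∀ A : ℕ → Set X, (∀ T, MeasurableSet (A T)) →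
      Tendsto (fun T => ν (A T)) atTop (𝓝 1) → ∃ T₀ : ℕ, ∀ T ≥ T₀,
        Leq (Typ P L (law ν F P L) δ b T) (pw S T) (A T) (Conf F S' T) (Real.exp (η * T)) := by
  classical
  have hFm : Measurable F := hF.measurable
  have hmp : MeasurePreserving F ν ν := hF.toMeasurePreserving
  set q := law ν F P L with hqdef
  have hq : ∀ w, 0 ≤ q w := fun w => ENNReal.toReal_nonneg
  have hq1 : ∑ w, q w = 1 := Pool.Agent.Helper88.Weiss.sum_law ν F hFm P hP L
  obtain ⟨δ, hδ, huc⟩ := Pool.Agent.Helper51.Weiss.uc n L hL q hq hq1 η hη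
  refine ⟨δ, hδ, ?_⟩
  intro b A hA hA1
  obtain ⟨T₁, huc⟩ := huc b
  obtain ⟨Pk, hPk, hPk1⟩ := Pool.Agent.Helper49.Weiss.exists_packings ν F hF P hP L hL
  set N : ℕ → Set X := fun T => {x | Near P L q (Pk T) (orb F x) T (δ * T)} with hN
  set C : ℕ → Set X := fun T => {x | ∀ a ∈ Pk T, 0 < q (word P L (orb F x) a)} with hC
  have hNm : ∀ T, MeasurableSet (N T) := fun T =>
    Pool.Agent.Helper49.Weiss.measurableSet_near F hFm P hP L q (Pk T) T (δ * T)
  have hCm : ∀ T, MeasurableSet (C T) := by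
    intro T
    have : C T = ⋂ a ∈ Pk T, (fun x => word P L (orb F x) a) ⁻¹' {w | 0 < q w} := by
      ext x
      simp [hC]
    rw [this]
    refine Finset.measurableSet_biInter _ fun a _ => ?_
    exact word_meas F hFm P hP L a (Set.toFinite _).measurableSet
  have hC0 : ∀ T, ν (C T)ᶜ = 0 := by
    intro T
    have : (C T)ᶜ ⊆ ⋃ a ∈ (Pk T : Set ℕ), {x | ¬ 0 < q (word P L (orb F x) a)} := by
      intro x hx
      simp only [hC, mem_compl_iff, mem_setOf_eq, not_forall] at hx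
      obtain ⟨a, ha, h⟩ := hx
      simp only [mem_iUnion]
      exact ⟨a, ha, h⟩
    refine measure_mono_null this ?_
    rw [measure_biUnion_null_iff (Set.to_countable _)]
    intro a _
    exact null_word ν F hmp P hP L a
  set B : ℕ → Set X := fun T => A T ∩ N T ∩ C T with hB
  have hBm : ∀ T, MeasurableSet (B T) := fun T => ((hA T).inter (hNm T)).inter (hCm T)
  have hB1 : Tendsto (fun T => ν (B T)) atTop (𝓝 1) :=
    tendsto_inter ν A N C hA hNm hCm hA1 (hPk1 δ hδ) hC0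
  obtain ⟨T₂, hnc⟩ := Pool.Agent.Helper51.Weiss.names_count ν F hFm P hP B hBm hB1 (η / 4) (by positivity)
  refine ⟨max T₁ T₂, fun T hT => ?_⟩
  have hT1 : T₁ ≤ T := (le_max_left _ _).trans hT
  have hT2 : T₂ ≤ T := (le_max_right _ _).trans hT
  have hcount := hnc T hT2
  set nm : X → (Fin T → Fin n) := fun x s => P (F^[s] x) with hnm
  have hXne : Nonempty X := nonempty_of_isProbabilityMeasure ν
  obtain ⟨x₀⟩ := hXne
  have hchoose : ∀ v ∈ nm '' (B T), ∃ x ∈ B T, nm x = v := fun v hv => hv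
  have hXne : Nonempty X := ⟨x₀⟩
  choose! rep hrepB hrep using hchoose
  set ext : (Fin T → Fin n) → (ℕ → Fin n) := fun v t => if h : t < T then v ⟨t, h⟩ else P x₀
    with hext
  have hextv : ∀ v (t : ℕ) (h : t < T), ext v t = v ⟨t, h⟩ := fun v t h => by
    simp [hext, h]
  have hfin : (nm '' (B T)).Finite := Set.toFinite _
  set W : Finset (ℕ → Fin n) := hfin.toFinset.image ext with hW
  have hextinj : Function.Injective ext := by
    intro v v' h
    funext s
    have := congrFun h s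
    rwa [hextv v s s.2, hextv v' s s.2] at this
  have hWmem : ∀ ξ ∈ W, ∃ v ∈ nm '' (B T), ext v = ξ := by
    intro ξ hξ
    obtain ⟨v, hv, rfl⟩ := Finset.mem_image.mp hξ
    exact ⟨v, hfin.mem_toFinset.mp hv, rfl⟩
  have hextP : ∀ v ∈ nm '' (B T), ∀ t < T, P (orb F (rep v) t) = id (ext v t) := by
    intro v hv t ht
    rw [hextv v t ht]
    exact congrFun (hrep v hv) ⟨t, ht⟩
  -- conflicts of letters
  set SP : Set (Fin n × Fin n) := {ij | ∃ x y, (x, y) ∈ S ∧ P x = ij.1 ∧ P y = ij.2} with hSP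
  have hSPirr : ∀ i, (i, i) ∉ SP := by
    rintro i ⟨x, y, hxy, hx, hy⟩
    simp only at hx hy
    exact hirr x (hslack x y x x hxy rfl (hy.trans hx.symm))
  have hstep2 : Leq (Typ id L q δ b T) (pw SP T) (W : Set (ℕ → Fin n)) (pw SP T)
      (Real.exp (η * T)) := by
    refine huc T hT1 SP hSPirr (Pk T) (hPk T) W ?_ ?_ ?_ ?_
    · intro ξ hξ ζ hζ h
      obtain ⟨v, hv, rfl⟩ := hWmem ξ hξ
      obtain ⟨v', hv', rfl⟩ := hWmem ζ hζ
      congr 1
      funext s
      have := h s s.2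
      rwa [hextv v s s.2, hextv v' s s.2] at this
    · intro ξ hξ
      obtain ⟨v, hv, rfl⟩ := hWmem ξ hξ
      exact near_congr (hPk T) (hextP v hv) (hrepB v hv).1.2
    · intro ξ hξ a ha
      obtain ⟨v, hv, rfl⟩ := hWmem ξ hξ
      rw [← word_congr (hPk T) (hextP v hv) a ha]
      exact (hrepB v hv).2 a ha
    · have hWcard : W.card = (nm '' (B T)).ncard := by
        rw [hW, Finset.card_image_of_injective _ hextinj, Set.ncard_eq_toFinset_card _ hfin]
      rw [hWcard]
      refine le_trans (Real.exp_le_exp.mpr ?_) hcount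
      refine mul_le_mul_of_nonneg_left ?_ (Nat.cast_nonneg _)
      linarith
  have hstep1 : Leq (Typ P L q δ b T) (pw S T) (Typ id L q δ b T) (pw SP T) 1 := by
    refine Leq.of_map (fun ξ t => P (ξ t)) ?_ ?_ ?_
    · rintro ξ ⟨A', hA', hN'⟩
      exact ⟨A', hA', near_congr hA' (fun t _ => rfl) hN'⟩
    · rintro ξ _ ζ _ ⟨t, ht, h⟩
      exact ⟨t, ht, ξ t, ζ t, h, rfl, rfl⟩
    · intro z _
      exact not_pw hSPirr T z
  have hstep3 : Leq (W : Set (ℕ → Fin n)) (pw SP T) (A T) (Conf F S' T) 1 := by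
    refine Leq.of_map (fun ξ => rep (fun s => ξ s)) ?_ ?_ ?_
    · intro ξ hξ
      obtain ⟨v, hv, rfl⟩ := hWmem ξ hξ
      have : (fun s : Fin T => ext v s) = v := funext fun s => hextv v s s.2
      rw [this]
      exact (hrepB v hv).1.1
    · rintro ξ hξ ζ hζ ⟨t, ht, x, y, hxy, hx, hy⟩
      obtain ⟨v, hv, rfl⟩ := hWmem ξ hξ
      obtain ⟨v', hv', rfl⟩ := hWmem ζ hζ
      have e1 : (fun s : Fin T => ext v s) = v := funext fun s => hextv v s s.2
      have e2 : (fun s : Fin T => ext v' s) = v' := funext fun s => hextv v' s s.2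
      simp only [e1, e2]
      refine ⟨t, ht, hslack x y _ _ hxy ?_ ?_⟩
      · rw [hx]
        exact (hextP v hv t ht).symm
      · rw [hy]
        exact (hextP v' hv' t ht).symm
    · intro z _
      exact not_conf F hirr T z
  have := (hstep1.trans zero_le_one hstep2).trans (by positivity) hstep3
  simpa using this

end Pool.Agent.Helper42.Weiss.WU
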