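import Pool.Agent.Helper42.Weiss.Defs

open Set Filter Topology

namespace Pool.Agent.Helper42.Weiss

variable {X : Type*}

/-- `E` is `(ε, D_T)`-separated, pointwise form. -/
def IsSep (D : X → X → ℝ) (F : X → X) (ε : ℝ) (T : ℕ) (E : Finset X) : Prop :=
  ∀ x ∈ E, ∀ y ∈ E, x ≠ y → ∃ t < T, ε < D (F^[t] x) (F^[t] y)

theorem lt_dynDist_iff (D : X → X → ℝ) (F : X → X) {ε : ℝ} (hε : 0 ≤ ε) (T : ℕ) (x y : X) :
    ε < dynDist D F T x y ↔ ∃ t < T, ε < D (F^[t] x) (F^[t] y) := by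
  unfold dynDist
  rcases Nat.eq_zero_or_pos T with h0 | h0
  · subst h0
    simp [hε]
  · haveI : Nonempty (Fin T) := ⟨⟨0, h0⟩⟩
    rw [lt_ciSup_iff (Set.finite_range _).bddAbove]
    constructor
    · rintro ⟨i, hi⟩
      exact ⟨i, i.2, hi⟩
    · rintro ⟨t, ht, h⟩
      exact ⟨⟨t, ht⟩, h⟩

theorem IsEquivMetric.nonneg [TopologicalSpace X] {D : X → X → ℝ} (h : IsEquivMetric D)
    (x y : X) : 0 ≤ D x y := by
  have h1 := h.triangle x y x
  rw [h.self, h.symm y x] at h1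
  linarith

/-- Finite labelling with small cells. -/
theorem exists_label [TopologicalSpace X] [CompactSpace X] {D : X → X → ℝ}
    (h : IsEquivMetric D) {ε : ℝ} (hε : 0 < ε) :
    ∃ n : ℕ, 0 < n ∧ ∃ κ : X → Fin n, ∀ x y, κ x = κ y → D x y < ε := by
  classical
  obtain ⟨s, -, hs⟩ := (isCompact_univ (X := X)).elim_nhds_subcover
    (fun x => {y | D x y < ε / 2}) (fun x _ => (h.basis x).mem_of_mem (by positivity))
  have hcov : ∀ y : X, ∃ x ∈ s, D x y < ε / 2 := by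
    intro y
    have := hs (mem_univ y)
    simpa using this
  choose c hc1 hc2 using hcov
  let e := s.equivFin
  refine ⟨s.card + 1, Nat.succ_pos _, fun y => (e ⟨c y, hc1 y⟩).castSucc, ?_⟩
  intro x y hxy
  have h1 : e ⟨c x, hc1 x⟩ = e ⟨c y, hc1 y⟩ := Fin.castSucc_injective _ hxy
  have h2 : c x = c y := by
    have := e.injective h1
    simpa using this
  have h3 := h.triangle x (c x) y
  have h4 := hc2 x
  have h5 := hc2 y
  rw [← h2] at h5
  rw [h.symm x (c x)] at h3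
  linarith

/-- Names bound. -/
theorem IsSep.card_le {D : X → X → ℝ} {F : X → X} {ε : ℝ} {T n : ℕ} {κ : X → Fin n}
    (hκ : ∀ x y, κ x = κ y → D x y < ε) {E : Finset X} (hE : IsSep D F ε T E) :
    E.card ≤ n ^ T := by
  classical
  have hinj : Set.InjOn (fun x : X => (fun t : Fin T => κ (F^[t] x))) (E : Set X) := by
    intro x hx y hy hxy
    by_contra hne
    obtain ⟨t, ht, h⟩ := hE x hx y hy hne
    have h1 : κ (F^[t] x) = κ (F^[t] y) := congrFun hxy ⟨t, ht⟩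
    exact absurd (hκ _ _ h1) (not_lt.2 h.le)
  have h2 := Finset.card_le_card_of_injOn (s := E) (t := (Finset.univ : Finset (Fin T → Fin n)))
    _ (fun _ _ => Finset.mem_coe.2 (Finset.mem_univ _)) hinj
  simpa using h2

theorem sepNum_bdd [TopologicalSpace X] [CompactSpace X] {D : X → X → ℝ}
    (h : IsEquivMetric D) (F : X → X) {ε : ℝ} (hε : 0 < ε) (T : ℕ) :
    BddAbove {n : ℕ | ∃ E : Finset X, E.card = n ∧
      ∀ x ∈ E, ∀ y ∈ E, x ≠ y → ε < dynDist D F T x y} := by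
  obtain ⟨n, -, κ, hκ⟩ := exists_label h hε
  refine ⟨n ^ T, ?_⟩
  rintro m ⟨E, rfl, hE⟩
  refine IsSep.card_le (D := D) (F := F) (ε := ε) hκ ?_
  intro x hx y hy hne
  exact (lt_dynDist_iff D F hε.le T x y).1 (hE x hx y hy hne)

theorem le_sepNum [TopologicalSpace X] [CompactSpace X] {D : X → X → ℝ}
    (h : IsEquivMetric D) {F : X → X} {ε : ℝ} (hε : 0 < ε) {T : ℕ} {E : Finset X}
    (hE : IsSep D F ε T E) : E.card ≤ sepNum D F ε T := by
  refine le_csSup (sepNum_bdd h F hε T) ⟨E, rfl, ?_⟩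
  intro x hx y hy hne
  exact (lt_dynDist_iff D F hε.le T x y).2 (hE x hx y hy hne)

theorem exists_sepNum [TopologicalSpace X] [CompactSpace X] {D : X → X → ℝ}
    (h : IsEquivMetric D) (F : X → X) {ε : ℝ} (hε : 0 < ε) (T : ℕ) :
    ∃ E : Finset X, E.card = sepNum D F ε T ∧ IsSep D F ε T E := by
  have hne : {n : ℕ | ∃ E : Finset X, E.card = n ∧
      ∀ x ∈ E, ∀ y ∈ E, x ≠ y → ε < dynDist D F T x y}.Nonempty := ⟨0, ∅, by simp⟩
  obtain ⟨E, hE, hE'⟩ := Nat.sSup_mem hne (sepNum_bdd h F hε T)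
  refine ⟨E, hE, ?_⟩
  intro x hx y hy hne
  exact (lt_dynDist_iff D F hε.le T x y).1 (hE' x hx y hy hne)

theorem one_le_sepNum [TopologicalSpace X] [CompactSpace X] [Nonempty X] {D : X → X → ℝ}
    (h : IsEquivMetric D) (F : X → X) {ε : ℝ} (hε : 0 < ε) (T : ℕ) :
    1 ≤ sepNum D F ε T := by
  obtain ⟨x⟩ := ‹Nonempty X›
  have := le_sepNum h (F := F) hε (T := T) (E := {x}) (by
    intro a ha b hb hab
    simp at ha hb
    exact absurd (ha.trans hb.symm) hab)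
  simpa using this

theorem IsSep.mono {D : X → X → ℝ} {F : X → X} {ε ε' : ℝ} {T T' : ℕ} (hε : ε' ≤ ε) (hT : T ≤ T')
    {E : Finset X} (hE : IsSep D F ε T E) : IsSep D F ε' T' E := by
  intro x hx y hy hne
  obtain ⟨t, ht, h⟩ := hE x hx y hy hne
  exact ⟨t, ht.trans_le hT, hε.trans_lt h⟩

theorem IsSep.subset {D : X → X → ℝ} {F : X → X} {ε : ℝ} {T : ℕ}
    {E E' : Finset X} (hE : IsSep D F ε T E) (h : E' ⊆ E) : IsSep D F ε T E' :=
  fun x hx y hy hne => hE x (h hx) y (h hy) hne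

theorem sepNum_mono [TopologicalSpace X] [CompactSpace X] {D : X → X → ℝ}
    (h : IsEquivMetric D) {F : X → X} {ε ε' : ℝ} (hε' : 0 < ε') (hε : ε' ≤ ε) {T T' : ℕ}
    (hT : T ≤ T') : sepNum D F ε T ≤ sepNum D F ε' T' := by
  obtain ⟨E, hE, hs⟩ := exists_sepNum h F (hε'.trans_le hε) T
  rw [← hE]
  exact le_sepNum h hε' (hs.mono hε hT)

theorem sepNum_le_pow [TopologicalSpace X] [CompactSpace X] {D : X → X → ℝ}
    (h : IsEquivMetric D) {F : X → X} {ε : ℝ} (hε : 0 < ε) {n : ℕ} {κ : X → Fin n}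
    (hκ : ∀ x y, κ x = κ y → D x y < ε) (T : ℕ) : sepNum D F ε T ≤ n ^ T := by
  obtain ⟨E, hE, hs⟩ := exists_sepNum h F hε T
  rw [← hE]
  exact hs.card_le hκ

/-- One more step costs at most a factor `n`. -/
theorem sepNum_succ_le [TopologicalSpace X] [CompactSpace X] {D : X → X → ℝ}
    (h : IsEquivMetric D) {F : X → X} {ε : ℝ} (hε : 0 < ε) {n : ℕ} {κ : X → Fin n}
    (hκ : ∀ x y, κ x = κ y → D x y < ε) (T : ℕ) :
    sepNum D F ε (T + 1) ≤ n * sepNum D F ε T := by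
  classical
  obtain ⟨E, hE, hs⟩ := exists_sepNum h F hε (T + 1)
  rw [← hE]
  have h1 : E.card ≤ ∑ i : Fin n, (E.filter (fun x => κ (F^[T] x) = i)).card := by
    rw [← Finset.card_eq_sum_card_fiberwise (f := fun x => κ (F^[T] x)) (t := Finset.univ)]
    intro x _
    exact Finset.mem_coe.2 (Finset.mem_univ _)
  refine h1.trans ?_
  have h2 : ∀ i : Fin n, (E.filter (fun x => κ (F^[T] x) = i)).card ≤ sepNum D F ε T := by
    intro i
    refine le_sepNum h hε ?_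
    intro x hx y hy hne
    rw [Finset.mem_filter] at hx hy
    obtain ⟨t, ht, h3⟩ := hs x hx.1 y hy.1 hne
    rcases Nat.lt_succ_iff_lt_or_eq.1 ht with h4 | h4
    · exact ⟨t, h4, h3⟩
    · subst h4
      exact absurd (hκ _ _ (hx.2.trans hy.2.symm)) (not_lt.2 h3.le)
  calc ∑ i : Fin n, (E.filter (fun x => κ (F^[T] x) = i)).card
      ≤ ∑ _i : Fin n, sepNum D F ε T := Finset.sum_le_sum (fun i _ => h2 i)
    _ = n * sepNum D F ε T := by simp

theorem sepNum_add_le [TopologicalSpace X] [CompactSpace X] {D : X → X → ℝ}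
    (h : IsEquivMetric D) {F : X → X} {ε : ℝ} (hε : 0 < ε) {n : ℕ} {κ : X → Fin n}
    (hκ : ∀ x y, κ x = κ y → D x y < ε) (T S : ℕ) :
    sepNum D F ε (T + S) ≤ n ^ S * sepNum D F ε T := by
  induction S with
  | zero => simp
  | succ S ih =>
    calc sepNum D F ε (T + (S + 1)) ≤ n * sepNum D F ε (T + S) := sepNum_succ_le h hε hκ (T + S)
      _ ≤ n * (n ^ S * sepNum D F ε T) := Nat.mul_le_mul_left _ ih
      _ = n ^ (S + 1) * sepNum D F ε T := by ring

end Pool.Agent.Helper42.Weiss
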