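import Mathlib

/-! MP_6b0aee_an (Weiss): equivalent metrics with convergent separation growth. Definitions. -/

open Set Filter Topology

namespace Pool.Agent.Helper42.Weiss

/-- `D` is a metric on the topological space `X` inducing the given topology. -/
structure IsEquivMetric {X : Type*} [TopologicalSpace X] (D : X → X → ℝ) : Prop where
  self : ∀ x, D x x = 0
  eq_of : ∀ x y, D x y = 0 → x = y
  symm : ∀ x y, D x y = D y x
  triangle : ∀ x y z, D x z ≤ D x y + D y z
  basis : ∀ x : X, (𝓝 x).HasBasis (fun r : ℝ => 0 < r) (fun r => {y | D x y < r})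

/-- The Bowen metric `D_T(x,y) = max_{0 ≤ t ≤ T-1} D(F^t x, F^t y)`. -/
noncomputable def dynDist {X : Type*} (D : X → X → ℝ) (F : X → X) (T : ℕ) (x y : X) : ℝ :=
  ⨆ t : Fin T, D (F^[t] x) (F^[t] y)

/-- `sep(ε, D_T)`: the largest cardinality of an `(ε, D_T)`-separated set. -/
noncomputable def sepNum {X : Type*} (D : X → X → ℝ) (F : X → X) (ε : ℝ) (T : ℕ) : ℕ :=
  sSup {n : ℕ | ∃ E : Finset X, E.card = n ∧
    ∀ x ∈ E, ∀ y ∈ E, x ≠ y → ε < dynDist D F T x y}

/-- The limit `lim_T (1/T) ln sep(ε, D_T)` exists. -/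
def HasSepRate {X : Type*} (D : X → X → ℝ) (F : X → X) (ε : ℝ) : Prop :=
  ∃ h : ℝ, Tendsto (fun T : ℕ => Real.log (sepNum D F ε T) / T) atTop (𝓝 h)

end Pool.Agent.Helper42.Weiss
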