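import Pool.Agent.Helper42.Weiss.GlueDefs
import Pool.Agent.Helper42.Weiss.Criterion

open Set Filter Topology

namespace Pool.Agent.Helper42.Weiss

variable {X : Type*}

/-! ### comparison of equivalent metrics -/

theorem unif_compare [TopologicalSpace X] [CompactSpace X] {D d : X → X → ℝ}
    (hD : IsEquivMetric D) (hd : IsEquivMetric d) {η : ℝ} (hη : 0 < η) :
    ∃ δ > 0, ∀ x y, d x y < δ → D x y < η := by
  classical
  have h1 : ∀ x : X, ∃ r > 0, ∀ y, d x y < 2 * r → D x y < η / 2 := by
    intro x
    have : {y | D x y < η / 2} ∈ 𝓝 x := (hD.basis x).mem_of_mem (by positivity)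
    obtain ⟨r, hr, hr'⟩ := (hd.basis x).mem_iff.1 this
    exact ⟨r / 2, by positivity, fun y hy => hr' (by show d x y < r; linarith)⟩
  choose r hr hr' using h1
  obtain ⟨s, -, hs⟩ := (isCompact_univ (X := X)).elim_nhds_subcover
    (fun x => {y | d x y < r x}) (fun x _ => (hd.basis x).mem_of_mem (hr x))
  rcases s.eq_empty_or_nonempty with h0 | h0
  · refine ⟨1, one_pos, fun x y _ => ?_⟩
    have := hs (mem_univ x)
    simp [h0] at this
  · refine ⟨s.inf' h0 r, ?_, ?_⟩
    · rw [gt_iff_lt, Finset.lt_inf'_iff]
      exact fun x _ => hr x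
    · intro x y hxy
      have := hs (mem_univ x)
      simp only [mem_iUnion, mem_setOf_eq, exists_prop] at this
      obtain ⟨c, hc, hcx⟩ := this
      have h2 : s.inf' h0 r ≤ r c := Finset.inf'_le _ hc
      have h3 := hd.triangle c x y
      have h4 := hr' c x (by linarith [hr c])
      have h5 := hr' c y (by linarith)
      have h6 := hD.triangle x c y
      rw [hD.symm x c] at h6
      linarith

theorem Traces.imp {F : X → X} {d D : X → X → ℝ} {η η' : ℝ}
    (h : ∀ x y, d x y ≤ η → D x y ≤ η') : ∀ (L : List (X × ℕ)) (P : List ℕ) (z : X),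
    Traces F d η z L P → Traces F D η' z L P
  | [], _, _, _ => trivial
  | _ :: _, [], _, h' => h'.elim
  | _ :: L, _ :: P, _, h' => ⟨fun s hs => h _ _ (h'.1 s hs), Traces.imp h L P _ h'.2⟩

theorem Glues.transfer [TopologicalSpace X] [CompactSpace X] {D d : X → X → ℝ}
    (hD : IsEquivMetric D) (hd : IsEquivMetric d) {F : X → X} (h : Glues F d) : Glues F D := by
  intro η hη
  obtain ⟨η', hη', h1⟩ := unif_compare hD hd hη
  obtain ⟨δ', hδ', g, hg, h2⟩ := h (η' / 2) (by positivity)
  obtain ⟨δ, hδ, h3⟩ := unif_compare hd hD hδ'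
  refine ⟨δ, hδ, g, hg, fun T L hL hc => ?_⟩
  obtain ⟨z, P, hP, hPg, ht⟩ := h2 T L hL (hc.imp (fun a b hab => h3 _ _ hab))
  exact ⟨z, P, hP, hPg, ht.imp (fun x y hxy => (h1 x y (by linarith)).le)⟩

theorem glues_of_weakSpecification {F : X → X} {d : X → X → ℝ} (h : WeakSpecification F d) :
    Glues F d := by
  intro η hη
  obtain ⟨g, hg, h1⟩ := h η hη
  exact ⟨1, one_pos, g, hg, fun T L hL _ => h1 T L hL⟩

/-- The pseudo-orbit obtained by concatenating orbit segments. -/
def concat (F : X → X) (x₀ : X) : List (X × ℕ) → ℕ → X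
  | [], _ => x₀
  | [a], n => F^[n] a.1
  | a :: b :: L, n => if n < a.2 then F^[n] a.1 else concat F x₀ (b :: L) (n - a.2)

theorem concat_zero (F : X → X) (x₀ : X) (a : X × ℕ) (L : List (X × ℕ)) (ha : 1 ≤ a.2) :
    concat F x₀ (a :: L) 0 = a.1 := by
  cases L with
  | nil => simp [concat]
  | cons b L => simp [concat, Nat.lt_of_lt_of_le Nat.zero_lt_one ha]

theorem concat_pseudo (F : X → X) {d : X → X → ℝ} {δ : ℝ} (hδ : 0 < δ) (hself : ∀ x, d x x = 0)
    (x₀ : X) : ∀ (L : List (X × ℕ)), L ≠ [] → (∀ a ∈ L, 1 ≤ a.2) →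
      L.IsChain (fun a b => d (F^[a.2] a.1) b.1 < δ) →
      ∀ n, d (F (concat F x₀ L n)) (concat F x₀ L (n + 1)) < δ
  | [], h, _, _, _ => absurd rfl h
  | [a], _, _, _, n => by
      simp only [concat]
      rw [Function.iterate_succ_apply', hself]
      exact hδ
  | a :: b :: L, _, hL, hc, n => by
      have hb : 1 ≤ b.2 := hL b (by simp)
      have hc' := List.isChain_cons_cons.1 hc
      rcases lt_trichotomy (n + 1) a.2 with h | h | h
      · have h1 : n < a.2 := by omega
        simp only [concat, h, h1, if_true]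
        rw [Function.iterate_succ_apply', hself]
        exact hδ
      · have h1 : n < a.2 := by omega
        have h2 : ¬ n + 1 < a.2 := by omega
        simp only [concat, h1, h2, if_true, if_false]
        have h3 : n + 1 - a.2 = 0 := by omega
        rw [h3, concat_zero F x₀ b L hb, ← Function.iterate_succ_apply' F n a.1, Nat.succ_eq_add_one, h]
        exact hc'.1
      · have h1 : ¬ n < a.2 := by omega
        have h2 : ¬ n + 1 < a.2 := by omega
        simp only [concat, h1, h2, if_false]
        have h3 : n + 1 - a.2 = (n - a.2) + 1 := by omega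
        rw [h3]
        exact concat_pseudo F hδ hself x₀ (b :: L) (by simp) (fun c hc => hL c (by simp [hc]))
          hc'.2 (n - a.2)

theorem traces_of_shadow (F : X → X) {d : X → X → ℝ} {η : ℝ} (x₀ : X) :
    ∀ (L : List (X × ℕ)) (z : X), (∀ n, d (F^[n] z) (concat F x₀ L n) ≤ η) →
      Traces F d η z L (List.replicate L.length 0)
  | [], _, _ => trivial
  | [a], z, h => by
      refine ⟨fun s _ => h s, trivial⟩
  | a :: b :: L, z, h => by
      refine ⟨fun s hs => ?_, ?_⟩
      · have := h s
        simpa only [concat, hs, if_true] using this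
      · refine traces_of_shadow F x₀ (b :: L) _ (fun n => ?_)
        have := h (n + a.2)
        have h1 : ¬ n + a.2 < a.2 := by omega
        simp only [concat, h1, if_false, Nat.add_sub_cancel] at this
        rw [Nat.add_zero, ← Function.iterate_add_apply]
        exact this

theorem glues_of_shadowing [TopologicalSpace X] [CompactSpace X] [Nonempty X] {d : X → X → ℝ}
    (hd : IsEquivMetric d) {F : X → X} (h : Shadowing F d) : Glues F d := by
  intro η hη
  obtain ⟨δ, hδ, h1⟩ := h η hη
  refine ⟨δ, hδ, fun _ => 0, by simp, fun T L hL hc => ?_⟩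
  obtain ⟨x₀⟩ := ‹Nonempty X›
  cases L with
  | nil => exact ⟨x₀, [], rfl, by simp, trivial⟩
  | cons a L =>
    obtain ⟨z, hz⟩ := h1 (concat F x₀ (a :: L))
      (concat_pseudo F hδ hd.self x₀ (a :: L) (by simp) (fun b hb => (hL b hb).1) hc)
    exact ⟨z, _, by simp, by simp, traces_of_shadow F x₀ (a :: L) z hz⟩

/-! ### tracing orbits inherit separation -/

theorem traces_sep {ι : Type*} {F : X → X} {D : X → X → ℝ} (hsymm : ∀ x y, D x y = D y x)
    (htri : ∀ x y z, D x z ≤ D x y + D y z) {η ε : ℝ} (x y : ι → X) (t : ι → ℕ) :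
    ∀ (I : List ι) (P : List ℕ) (z z' : X),
      Traces F D η z (I.map (fun i => (x i, t i))) P →
      Traces F D η z' (I.map (fun i => (y i, t i))) P →
      ∀ i ∈ I, ∀ s < t i, ε < D (F^[s] (x i)) (F^[s] (y i)) →
      ∃ u < (I.map t).sum + P.sum, ε - 2 * η < D (F^[u] z) (F^[u] z')
  | [], _, _, _, _, _, i, hi => absurd hi (by simp)
  | _ :: _, [], _, _, h, _, _, _ => h.elim
  | a :: I, p :: P, z, z', h, h', i, hi => by
      intro s hs hlt
      rcases List.mem_cons.1 hi with h1 | h1
      · subst h1
        refine ⟨s, ?_, ?_⟩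
        · simp only [List.map_cons, List.sum_cons]
          omega
        · have e1 := h.1 s hs
          have e2 := h'.1 s hs
          have e3 := htri (F^[s] (x i)) (F^[s] z) (F^[s] (y i))
          have e4 := htri (F^[s] z) (F^[s] z') (F^[s] (y i))
          rw [hsymm (F^[s] (x i)) (F^[s] z)] at e3
          simp only at e1 e2
          linarith
      · obtain ⟨u, hu, hu'⟩ := traces_sep hsymm htri x y t I P _ _ h.2 h'.2 i h1 s hs hlt
        refine ⟨u + (t a + p), ?_, ?_⟩
        · simp only [List.map_cons, List.sum_cons]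
          omega
        · rw [Function.iterate_add_apply F u (t a + p) z, Function.iterate_add_apply F u (t a + p) z']
          exact hu'

/-! ### loops in a word -/

theorem exists_breaks_aux {n : ℕ} (w : ℕ → Fin n) (T : ℕ) :
    ∀ (m u : ℕ), u ≤ T → ((Finset.Ico u T).image w).card ≤ m →
      ∃ s : ℕ → ℕ, s 0 = u ∧ s m = T ∧ (∀ j, s j ≤ s (j + 1)) ∧ (∀ j, s j ≤ T) ∧
        ∀ j < m, s j < s (j + 1) → w (s (j + 1) - 1) = w (s j)
  | 0, u, hu, hc => by
      have h1 : (Finset.Ico u T).image w = ∅ := Finset.card_eq_zero.1 (Nat.le_zero.1 hc)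
      rw [Finset.image_eq_empty, Finset.Ico_eq_empty_iff, not_lt] at h1
      have h2 : u = T := le_antisymm hu h1
      exact ⟨fun _ => T, h2.symm, rfl, fun _ => le_rfl, fun _ => le_rfl,
        fun j hj => absurd hj (Nat.not_lt_zero _)⟩
  | m + 1, u, hu, hc => by
      classical
      rcases hu.eq_or_lt with h1 | h1
      · exact ⟨fun _ => T, h1.symm, rfl, fun _ => le_rfl, fun _ => le_rfl,
          fun j _ hj => absurd hj (lt_irrefl _)⟩
      · set S := (Finset.Ico u T).filter (fun t => w t = w u) with hS
        have hne : S.Nonempty := ⟨u, by simp [hS, h1]⟩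
        set b := S.max' hne with hb
        have hbS : b ∈ S := S.max'_mem hne
        rw [hS, Finset.mem_filter, Finset.mem_Ico] at hbS
        have hlast : ∀ t, b < t → t < T → w t ≠ w u := by
          intro t ht ht' he
          have : t ∈ S := by
            rw [hS, Finset.mem_filter, Finset.mem_Ico]
            exact ⟨⟨by omega, ht'⟩, he⟩
          exact absurd (S.le_max' t this) (not_le.2 ht)
        have hcard : ((Finset.Ico (b + 1) T).image w).card ≤ m := by
          have hsub : (Finset.Ico (b + 1) T).image w ⊆ ((Finset.Ico u T).image w).erase (w u) := by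
            intro c hc
            rw [Finset.mem_image] at hc
            obtain ⟨t, ht, rfl⟩ := hc
            rw [Finset.mem_Ico] at ht
            rw [Finset.mem_erase]
            exact ⟨hlast t (by omega) ht.2, Finset.mem_image_of_mem _ (by
              rw [Finset.mem_Ico]; omega)⟩
          refine (Finset.card_le_card hsub).trans ?_
          rw [Finset.card_erase_of_mem (Finset.mem_image_of_mem _ (by
              rw [Finset.mem_Ico]; omega))]
          omega
        obtain ⟨s', h0, hm, hmono, hle, hw⟩ := exists_breaks_aux w T m (b + 1) (by omega) hcard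
        refine ⟨fun j => Nat.casesOn j u s', rfl, hm, ?_, ?_, ?_⟩
        · intro j
          cases j with
          | zero => show u ≤ s' 0; omega
          | succ j => exact hmono j
        · intro j
          cases j with
          | zero => exact hu
          | succ j => exact hle j
        · intro j hj hlt
          cases j with
          | zero =>
            show w (s' 0 - 1) = w u
            rw [h0, Nat.add_sub_cancel]
            exact hbS.2
          | succ j => exact hw j (by omega) hlt

theorem exists_breaks {n : ℕ} (w : ℕ → Fin n) (T : ℕ) :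
    ∃ s : ℕ → ℕ, s 0 = 0 ∧ s n = T ∧ (∀ j, s j ≤ s (j + 1)) ∧ (∀ j, s j ≤ T) ∧
        ∀ j < n, s j < s (j + 1) → w (s (j + 1) - 1) = w (s j) :=
  exists_breaks_aux w T n 0 (Nat.zero_le _)
    ((Finset.card_le_card (Finset.subset_univ _)).trans (by simp))

end Pool.Agent.Helper42.Weiss
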