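import Pool.Agent.Helper42.Weiss.GlueMain

open Set Filter Topology

namespace Pool.Agent.Helper42.Weiss

variable {X : Type*}

theorem exists_big_fiber {α β : Type*} [Fintype β] [DecidableEq β] (E : Finset α)
    (hE : E.Nonempty) (f : α → β) :
    ∃ b, E.card ≤ Fintype.card β * (E.filter (fun x => f x = b)).card := by
  classical
  by_contra hcon
  push Not at hcon
  obtain ⟨x, hx⟩ := hE
  have h1 : E.card = ∑ b : β, (E.filter (fun x => f x = b)).card := by
    rw [← Finset.card_eq_sum_card_fiberwise (f := f) (t := Finset.univ)]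
    intro x _
    exact Finset.mem_coe.2 (Finset.mem_univ _)
  have h2 : ∑ b : β, Fintype.card β * (E.filter (fun x => f x = b)).card < ∑ _b : β, E.card :=
    Finset.sum_lt_sum_of_nonempty ⟨f x, Finset.mem_univ _⟩ (fun b _ => hcon b)
  rw [← Finset.mul_sum, ← h1] at h2
  simp at h2

theorem glue_core [TopologicalSpace X] [CompactSpace X] {D : X → X → ℝ} (hD : IsEquivMetric D)
    {F : X → X} {ε ε' η₀ δ : ℝ} (hε' : 0 < ε') (h2 : ε' ≤ ε - 2 * η₀) {n : ℕ} {κ : X → Fin n}
    (hκε : ∀ x y, κ x = κ y → D x y < ε) (hκδ : ∀ x y, κ x = κ y → D x y < δ) {T G : ℕ}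
    (hglue : ∀ L : List (X × ℕ), (∀ a ∈ L, 1 ≤ a.2 ∧ a.2 ≤ T) →
      L.IsChain (fun a b => D (F^[a.2] a.1) b.1 < δ) →
      ∃ (z : X) (P : List ℕ), P.length = L.length ∧ (∀ p ∈ P, p ≤ G) ∧ Traces F D η₀ z L P)
    {E₁ : Finset X} (hsep : IsSep D F ε T E₁) {s : ℕ → ℕ} {c : ℕ → Fin n} (hs0 : s 0 = 0)
    (hsn : s n = T) (hmono : ∀ j, s j ≤ s (j + 1)) (hle : ∀ j, s j ≤ T)
    (hstart : ∀ x ∈ E₁, ∀ j ≤ n, κ (F^[s j] x) = c j)
    (hend : ∀ x ∈ E₁, ∀ j < n, s j < s (j + 1) → κ (F^[s (j + 1) - 1] x) = c j) (m : ℕ) :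
    E₁.card ^ (m + 1) ≤ (G + 1) ^ (n * (m + 1)) * sepNum D F ε' ((m + 1) * (T + n * G)) := by
  classical
  rcases E₁.eq_empty_or_nonempty with hemp | hne
  · simp [hemp]
  -- tuples
  let xs : (Fin (m + 1) → E₁) → ℕ → X := fun f l => if h : l < m + 1 then f ⟨l, h⟩ else f 0
  have hxs : ∀ f l, xs f l ∈ E₁ := by
    intro f l
    simp only [xs]
    split_ifs
    · exact (f _).2
    · exact (f _).2
  set I := blockIdx s m n with hI
  have hex : ∀ f : Fin (m + 1) → E₁, ∃ (z : X) (P : List ℕ), P.length = I.length ∧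
      (∀ p ∈ P, p ≤ G) ∧
      Traces F D η₀ z (I.map (fun i => (F^[s i.1] (xs f i.2), segLen s m i))) P := by
    intro f
    have h3 := hglue (I.map (fun i => (F^[s i.1] (xs f i.2), segLen s m i))) ?_ ?_
    · obtain ⟨z, P, hP, hPG, ht⟩ := h3
      exact ⟨z, P, by simpa using hP, hPG, ht⟩
    · intro a ha
      rw [List.mem_map] at ha
      obtain ⟨i, hi, rfl⟩ := ha
      obtain ⟨h4, h5, -, -⟩ := blockIdx_spec n i hi
      exact ⟨h4, h5.trans (hle _)⟩
    · have hpath := blockIdx_path (κ := κ) (F := F) (s := s) (m := m) (x := xs f) (N := n) (c := c)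
        hmono (fun j hj l _ => hstart _ (hxs f l) j hj)
        (fun j hj l _ hlt => hend _ (hxs f l) j hj hlt) n le_rfl
      exact Path.isChain (R := fun x y => D x y < δ) hκδ _ _ _ hpath
  choose z P hPlen hPG htr using hex
  have hIlen : I.length ≤ n * (m + 1) := blockIdx_length n
  let code : (Fin (m + 1) → E₁) → (Fin (n * (m + 1)) → Fin (G + 1)) := fun f k =>
    ⟨min ((P f).getD k 0) G, by
      have := min_le_right ((P f).getD k 0) G
      omega⟩
  have hcode : ∀ f f', code f = code f' → P f = P f' := by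
    intro f f' h
    refine List.ext_getElem ((hPlen f).trans (hPlen f').symm) (fun k hk hk' => ?_)
    have hk2 : k < n * (m + 1) := by
      rw [hPlen f] at hk
      omega
    have h3 := congrFun h ⟨k, hk2⟩
    simp only [code, Fin.mk.injEq] at h3
    rw [List.getD_eq_getElem _ _ hk, List.getD_eq_getElem _ _ hk'] at h3
    rw [min_eq_left (hPG f _ (List.getElem_mem hk)),
      min_eq_left (hPG f' _ (List.getElem_mem hk'))] at h3
    exact h3
  haveI : Nonempty E₁ := ⟨⟨_, hne.choose_spec⟩⟩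
  obtain ⟨b, hb⟩ := exists_big_fiber (Finset.univ : Finset (Fin (m + 1) → E₁))
    Finset.univ_nonempty code
  set S := (Finset.univ : Finset (Fin (m + 1) → E₁)).filter (fun f => code f = b) with hS
  have hcardT : (Finset.univ : Finset (Fin (m + 1) → E₁)).card = E₁.card ^ (m + 1) := by
    simp
  have hcardC : Fintype.card (Fin (n * (m + 1)) → Fin (G + 1)) = (G + 1) ^ (n * (m + 1)) := by
    simp
  rw [hcardT, hcardC] at hb
  refine hb.trans (Nat.mul_le_mul_left _ ?_)
  -- separation of the traces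
  have hsum : ∀ f, (I.map (segLen s m)).sum + (P f).sum ≤ (m + 1) * (T + n * G) := by
    intro f
    have h3 := blockIdx_sum (m := m) hmono n
    rw [hs0, hsn] at h3
    have h4 : (P f).sum ≤ (P f).length * G := by
      have := List.sum_le_card_nsmul (P f) G (hPG f)
      simpa using this
    have h5 : (P f).length * G ≤ n * (m + 1) * G := Nat.mul_le_mul_right _ (by
      rw [hPlen f]; exact hIlen)
    calc _ ≤ (m + 1) * (T - 0) + n * (m + 1) * G := Nat.add_le_add h3 (h4.trans h5)
      _ = (m + 1) * (T + n * G) := by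
        rw [Nat.sub_zero]
        ring
  have hkey : ∀ f ∈ S, ∀ f' ∈ S, f ≠ f' → ∃ u < (m + 1) * (T + n * G),
      ε' < D (F^[u] (z f)) (F^[u] (z f')) := by
    intro f hf f' hf' hff
    rw [hS, Finset.mem_filter] at hf hf'
    have hPP : P f = P f' := hcode f f' (hf.2.trans hf'.2.symm)
    obtain ⟨l, hl⟩ := Function.ne_iff.1 hff
    have hl' : (f l : X) ≠ f' l := fun h => hl (Subtype.ext h)
    obtain ⟨t, ht, hlt⟩ := hsep _ (f l).2 _ (f' l).2 hl'
    obtain ⟨j, hj, hj1, hj2⟩ := exists_block hs0 hsn ht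
    have hxl : xs f l = f l := dif_pos l.2
    have hxl' : xs f' l = f' l := dif_pos l.2
    have hne1 : s j ≠ t := by
      intro h
      have h3 := (hstart _ (f l).2 j hj.le).trans (hstart _ (f' l).2 j hj.le).symm
      rw [h] at h3
      exact absurd (hκε _ _ h3) (not_lt.2 hlt.le)
    have hne2 : t ≠ s (j + 1) - 1 := by
      intro h
      have h3 := (hend _ (f l).2 j hj (by omega)).trans (hend _ (f' l).2 j hj (by omega)).symm
      rw [← h] at h3
      exact absurd (hκε _ _ h3) (not_lt.2 hlt.le)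
    have hmem : (j, (l : ℕ)) ∈ I := mem_blockIdx_loop (by omega) (by omega) n hj
    have hlen : t - s j < segLen s m (j, (l : ℕ)) := by
      simp only [segLen]
      split_ifs <;> omega
    have htr' := htr f'
    rw [← hPP] at htr'
    obtain ⟨u, hu, hu'⟩ := traces_sep (ε := ε) hD.symm hD.triangle
      (fun i : ℕ × ℕ => F^[s i.1] (xs f i.2)) (fun i : ℕ × ℕ => F^[s i.1] (xs f' i.2))
      (segLen s m) I (P f) (z f) (z f') (htr f) htr' (j, (l : ℕ)) hmem (t - s j) hlen (by
        show ε < D (F^[t - s j] (F^[s j] (xs f l))) (F^[t - s j] (F^[s j] (xs f' l)))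
        rw [← Function.iterate_add_apply, ← Function.iterate_add_apply, hxl, hxl']
        have h3 : t - s j + s j = t := by omega
        rw [h3]
        exact hlt)
    exact ⟨u, hu.trans_le (hsum f), by linarith⟩
  have hinj : Set.InjOn z (S : Set (Fin (m + 1) → E₁)) := by
    intro f hf f' hf' h
    by_contra hff
    obtain ⟨u, -, hu⟩ := hkey f hf f' hf' hff
    rw [h, hD.self] at hu
    linarith
  rw [← Finset.card_image_of_injOn hinj]
  refine le_sepNum hD hε' ?_
  intro a ha b' hb' hab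
  rw [Finset.mem_image] at ha hb'
  obtain ⟨f, hf, rfl⟩ := ha
  obtain ⟨f', hf', rfl⟩ := hb'
  exact hkey f hf f' hf' (fun h => hab (by rw [h]))

end Pool.Agent.Helper42.Weiss
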