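import Pool.Agent.Helper42.Weiss.Defs

open Set Filter Topology

namespace Pool.Agent.Helper42.Weiss

/-- The orbit of `z` traces the orbit segments `a.1, F a.1, ..., F^(a.2 - 1) a.1` (`a ∈ L`), one
after the other and up to `η`, where after the `i`-th segment `P_i` steps are left free. -/
def Traces {X : Type*} (F : X → X) (d : X → X → ℝ) (η : ℝ) : X → List (X × ℕ) → List ℕ → Prop
  | _, [], _ => True
  | _, _ :: _, [] => False
  | z, a :: L, p :: P =>
      (∀ s < a.2, d (F^[s] z) (F^[s] a.1) ≤ η) ∧ Traces F d η (F^[a.2 + p] z) L P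

/-- **Gluing of nearly matching orbit segments with sublinear gaps.**  For every `η > 0` there are
`δ > 0` and a gap function `g(T) = o(T)` such that every finite list of orbit segments of lengths
between `1` and `T`, each ending (one step later) `δ`-close to the beginning of the next one, is
traced up to `η` by one orbit with gaps at most `g(T)`. -/
def Glues {X : Type*} (F : X → X) (d : X → X → ℝ) : Prop :=
  ∀ η > 0, ∃ δ > 0, ∃ g : ℕ → ℕ, Tendsto (fun T : ℕ => (g T : ℝ) / T) atTop (𝓝 0) ∧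
    ∀ (T : ℕ) (L : List (X × ℕ)), (∀ a ∈ L, 1 ≤ a.2 ∧ a.2 ≤ T) →
      L.IsChain (fun a b => d (F^[a.2] a.1) b.1 < δ) →
      ∃ (z : X) (P : List ℕ), P.length = L.length ∧ (∀ p ∈ P, p ≤ g T) ∧ Traces F d η z L P

/-- The shadowing (pseudo-orbit tracing) property. -/
def Shadowing {X : Type*} (F : X → X) (d : X → X → ℝ) : Prop :=
  ∀ η > 0, ∃ δ > 0, ∀ y : ℕ → X, (∀ n, d (F (y n)) (y (n + 1)) < δ) →
    ∃ z, ∀ n, d (F^[n] z) (y n) ≤ η

/-- A weak specification property: arbitrary finite lists of orbit segments of lengths at most `T`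
are traced up to `η` by one orbit with gaps at most `g(T) = o(T)`. -/
def WeakSpecification {X : Type*} (F : X → X) (d : X → X → ℝ) : Prop :=
  ∀ η > 0, ∃ g : ℕ → ℕ, Tendsto (fun T : ℕ => (g T : ℝ) / T) atTop (𝓝 0) ∧
    ∀ (T : ℕ) (L : List (X × ℕ)), (∀ a ∈ L, 1 ≤ a.2 ∧ a.2 ≤ T) →
      ∃ (z : X) (P : List ℕ), P.length = L.length ∧ (∀ p ∈ P, p ≤ g T) ∧ Traces F d η z L P

end Pool.Agent.Helper42.Weiss
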