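import Pool.Agent.Helper42.Weiss.Glue

open Set Filter Topology

namespace Pool.Agent.Helper42.Weiss

variable {X : Type*}

/-- indices of the loops number `j`, copies `l < m` -/
def loopIdx (s : ℕ → ℕ) (j : ℕ) : ℕ → List (ℕ × ℕ)
  | 0 => []
  | m + 1 => loopIdx s j m ++ (if s j < s (j + 1) - 1 then [(j, m)] else [])

/-- all indices of the blocks number `< k` (`q = m + 1` copies) -/
def blockIdx (s : ℕ → ℕ) (m : ℕ) : ℕ → List (ℕ × ℕ)
  | 0 => []
  | k + 1 => blockIdx s m k ++ (if s k < s (k + 1) then loopIdx s k m ++ [(k, m)] else [])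

/-- length of the segment with index `(j, l)` -/
def segLen (s : ℕ → ℕ) (m : ℕ) (i : ℕ × ℕ) : ℕ :=
  if i.2 = m then s (i.1 + 1) - s i.1 else s (i.1 + 1) - 1 - s i.1

/-- label path -/
def Path {n : ℕ} (κ : X → Fin n) (F : X → X) : Fin n → List (X × ℕ) → Fin n → Prop
  | c, [], c' => c = c'
  | c, a :: L, c' => κ a.1 = c ∧ Path κ F (κ (F^[a.2] a.1)) L c'

theorem Path.append {n : ℕ} {κ : X → Fin n} {F : X → X} :
    ∀ (L₁ L₂ : List (X × ℕ)) (c c' c'' : Fin n), Path κ F c L₁ c' → Path κ F c' L₂ c'' →
      Path κ F c (L₁ ++ L₂) c''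
  | [], _, _, _, _, h, h' => by
      simp only [Path] at h
      subst h
      exact h'
  | _ :: L₁, L₂, _, c', c'', h, h' => ⟨h.1, Path.append L₁ L₂ _ c' c'' h.2 h'⟩

theorem Path.isChain {n : ℕ} {κ : X → Fin n} {F : X → X} {R : X → X → Prop}
    (hR : ∀ x y, κ x = κ y → R x y) :
    ∀ (L : List (X × ℕ)) (c c' : Fin n), Path κ F c L c' →
      L.IsChain (fun a b => R (F^[a.2] a.1) b.1)
  | [], _, _, _ => List.IsChain.nil
  | [_], _, _, _ => List.IsChain.singleton _
  | a :: b :: L, _, c', h => by
      refine List.isChain_cons_cons.2 ⟨hR _ _ h.2.1.symm, ?_⟩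
      exact Path.isChain hR (b :: L) _ c' h.2

section

variable {n : ℕ} {κ : X → Fin n} {F : X → X} {s : ℕ → ℕ} {m : ℕ} {x : ℕ → X}

theorem loopIdx_path {j : ℕ} {c : Fin n}
    (hstart : ∀ l ≤ m, κ (F^[s j] (x l)) = c)
    (hend : ∀ l ≤ m, s j < s (j + 1) → κ (F^[s (j + 1) - 1] (x l)) = c) :
    ∀ k ≤ m, Path κ F c ((loopIdx s j k).map (fun i => (F^[s i.1] (x i.2), segLen s m i))) c
  | 0, _ => rfl
  | k + 1, hk => by
      rw [loopIdx, List.map_append]
      refine Path.append _ _ c c c (loopIdx_path hstart hend k (by omega)) ?_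
      by_cases h : s j < s (j + 1) - 1
      · rw [if_pos h]
        refine ⟨hstart k (by omega), ?_⟩
        simp only [Path]
        have h1 : segLen s m (j, k) = s (j + 1) - 1 - s j := by
          simp only [segLen]
          rw [if_neg (by omega)]
        show κ (F^[segLen s m (j, k)] (F^[s j] (x k))) = c
        rw [h1, ← Function.iterate_add_apply]
        have h2 : s (j + 1) - 1 - s j + s j = s (j + 1) - 1 := by omega
        rw [h2]
        exact hend k (by omega) (by omega)
      · rw [if_neg h]
        rfl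

theorem blockIdx_path {N : ℕ} {c : ℕ → Fin n} (hmono : ∀ j, s j ≤ s (j + 1))
    (hstart : ∀ j ≤ N, ∀ l ≤ m, κ (F^[s j] (x l)) = c j)
    (hend : ∀ j < N, ∀ l ≤ m, s j < s (j + 1) → κ (F^[s (j + 1) - 1] (x l)) = c j) :
    ∀ k ≤ N, Path κ F (c 0) ((blockIdx s m k).map (fun i => (F^[s i.1] (x i.2), segLen s m i))) (c k)
  | 0, _ => rfl
  | k + 1, hk => by
      rw [blockIdx, List.map_append]
      refine Path.append _ _ (c 0) (c k) (c (k + 1)) (blockIdx_path hmono hstart hend k (by omega)) ?_
      by_cases h : s k < s (k + 1)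
      · rw [if_pos h, List.map_append]
        refine Path.append _ _ (c k) (c k) (c (k + 1)) ?_ ?_
        · exact loopIdx_path (hstart k (by omega)) (hend k (by omega)) m le_rfl
        · refine ⟨hstart k (by omega) m le_rfl, ?_⟩
          simp only [Path]
          have h1 : segLen s m (k, m) = s (k + 1) - s k := by simp [segLen]
          show κ (F^[segLen s m (k, m)] (F^[s k] (x m))) = c (k + 1)
          rw [h1, ← Function.iterate_add_apply]
          have h2 : s (k + 1) - s k + s k = s (k + 1) := by omega
          rw [h2]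
          exact hstart (k + 1) (by omega) m le_rfl
      · rw [if_neg h]
        have h1 : s k = s (k + 1) := le_antisymm (hmono k) (not_lt.1 h)
        show c k = c (k + 1)
        rw [← hstart k (by omega) m le_rfl, ← hstart (k + 1) hk m le_rfl, h1]

end

theorem mem_loopIdx {s : ℕ → ℕ} {j : ℕ} (h : s j < s (j + 1) - 1) :
    ∀ (k l : ℕ), l < k → (j, l) ∈ loopIdx s j k
  | 0, _, hl => absurd hl (Nat.not_lt_zero _)
  | k + 1, l, hl => by
      rw [loopIdx, List.mem_append]
      rcases Nat.lt_succ_iff_lt_or_eq.1 hl with h1 | h1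
      · exact Or.inl (mem_loopIdx h k l h1)
      · subst h1
        right
        rw [if_pos h]
        simp

theorem mem_blockIdx_loop {s : ℕ → ℕ} {m j l : ℕ} (h : s j < s (j + 1) - 1) (hl : l ≤ m) :
    ∀ k, j < k → (j, l) ∈ blockIdx s m k
  | 0, hj => absurd hj (Nat.not_lt_zero _)
  | k + 1, hj => by
      rw [blockIdx, List.mem_append]
      rcases Nat.lt_succ_iff_lt_or_eq.1 hj with h1 | h1
      · exact Or.inl (mem_blockIdx_loop h hl k h1)
      · subst h1
        right
        rw [if_pos (by omega), List.mem_append]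
        rcases hl.lt_or_eq with h2 | h2
        · exact Or.inl (mem_loopIdx h m l h2)
        · subst h2
          right
          simp

theorem loopIdx_spec {s : ℕ → ℕ} {j m : ℕ} : ∀ (k : ℕ), k ≤ m → ∀ i ∈ loopIdx s j k,
    i.1 = j ∧ i.2 < m ∧ s j < s (j + 1) - 1
  | 0, _, i, hi => absurd hi (by simp [loopIdx])
  | k + 1, hk, i, hi => by
      rw [loopIdx, List.mem_append] at hi
      rcases hi with h | h
      · exact loopIdx_spec k (by omega) i h
      · by_cases h1 : s j < s (j + 1) - 1
        · rw [if_pos h1, List.mem_singleton] at h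
          subst h
          exact ⟨rfl, by show k < m; omega, h1⟩
        · rw [if_neg h1] at h
          exact absurd h (by simp)

theorem blockIdx_spec {s : ℕ → ℕ} {m : ℕ} : ∀ (k : ℕ), ∀ i ∈ blockIdx s m k,
    1 ≤ segLen s m i ∧ segLen s m i ≤ s (i.1 + 1) ∧ i.1 < k ∧ i.2 ≤ m
  | 0, i, hi => absurd hi (by simp [blockIdx])
  | k + 1, i, hi => by
      rw [blockIdx, List.mem_append] at hi
      rcases hi with h | h
      · obtain ⟨h1, h2, h3, h4⟩ := blockIdx_spec k i h
        exact ⟨h1, h2, by omega, h4⟩
      · by_cases h1 : s k < s (k + 1)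
        · rw [if_pos h1, List.mem_append, List.mem_singleton] at h
          rcases h with h | h
          · obtain ⟨h2, h3, h4⟩ := loopIdx_spec (m := m) m le_rfl i h
            have h5 : segLen s m i = s (k + 1) - 1 - s k := by
              have h6 : i.2 ≠ m := by omega
              simp only [segLen, if_neg h6, h2]
            refine ⟨by omega, ?_, by omega, by omega⟩
            rw [h5, h2]
            omega
          · subst h
            have h5 : segLen s m (k, m) = s (k + 1) - s k := by simp [segLen]
            refine ⟨by omega, by rw [h5]; show _ ≤ s (k + 1); omega, by show k < k + 1; omega,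
              le_rfl⟩
        · rw [if_neg h1] at h
          exact absurd h (by simp)

theorem loopIdx_sum {s : ℕ → ℕ} {j m : ℕ} : ∀ (k : ℕ), k ≤ m →
    ((loopIdx s j k).map (segLen s m)).sum ≤ k * (s (j + 1) - s j)
  | 0, _ => by simp [loopIdx]
  | k + 1, hk => by
      rw [loopIdx, List.map_append, List.sum_append]
      have ih := loopIdx_sum (s := s) (j := j) (m := m) k (by omega)
      have h2 : ((if s j < s (j + 1) - 1 then [(j, k)] else []).map (segLen s m)).sum ≤
          s (j + 1) - s j := by
        by_cases h : s j < s (j + 1) - 1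
        · rw [if_pos h]
          simp only [List.map_cons, List.map_nil, List.sum_cons, List.sum_nil, segLen]
          rw [if_neg (by omega)]
          omega
        · rw [if_neg h]
          simp
      calc _ ≤ k * (s (j + 1) - s j) + (s (j + 1) - s j) := Nat.add_le_add ih h2
        _ = (k + 1) * (s (j + 1) - s j) := by ring

theorem blockIdx_sum {s : ℕ → ℕ} {m : ℕ} (hmono : ∀ j, s j ≤ s (j + 1)) : ∀ (k : ℕ),
    ((blockIdx s m k).map (segLen s m)).sum ≤ (m + 1) * (s k - s 0)
  | 0 => by simp [blockIdx]
  | k + 1 => by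
      rw [blockIdx, List.map_append, List.sum_append]
      have ih := blockIdx_sum (m := m) hmono k
      have h0 : ∀ k, s 0 ≤ s k := fun k => monotone_nat_of_le_succ hmono (Nat.zero_le k)
      have h2 : ((if s k < s (k + 1) then loopIdx s k m ++ [(k, m)] else []).map (segLen s m)).sum ≤
          (m + 1) * (s (k + 1) - s k) := by
        by_cases h : s k < s (k + 1)
        · rw [if_pos h, List.map_append, List.sum_append]
          have h3 := loopIdx_sum (s := s) (j := k) (m := m) m le_rfl
          simp only [List.map_cons, List.map_nil, List.sum_cons, List.sum_nil, segLen, if_true]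
          calc _ ≤ m * (s (k + 1) - s k) + (s (k + 1) - s k + 0) := Nat.add_le_add h3 le_rfl
            _ = (m + 1) * (s (k + 1) - s k) := by ring
        · rw [if_neg h]
          simp
      have h3 : s (k + 1) - s 0 = (s k - s 0) + (s (k + 1) - s k) := by
        have := h0 k
        have := hmono k
        omega
      calc _ ≤ (m + 1) * (s k - s 0) + (m + 1) * (s (k + 1) - s k) := Nat.add_le_add ih h2
        _ = (m + 1) * (s (k + 1) - s 0) := by rw [h3]; ring

theorem loopIdx_length {s : ℕ → ℕ} {j : ℕ} : ∀ (k : ℕ), (loopIdx s j k).length ≤ k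
  | 0 => by simp [loopIdx]
  | k + 1 => by
      rw [loopIdx, List.length_append]
      have ih := loopIdx_length (s := s) (j := j) k
      have : (if s j < s (j + 1) - 1 then [(j, k)] else []).length ≤ 1 := by
        split_ifs <;> simp
      omega

theorem blockIdx_length {s : ℕ → ℕ} {m : ℕ} : ∀ (k : ℕ), (blockIdx s m k).length ≤ k * (m + 1)
  | 0 => by simp [blockIdx]
  | k + 1 => by
      rw [blockIdx, List.length_append]
      have ih := blockIdx_length (s := s) (m := m) k
      have : (if s k < s (k + 1) then loopIdx s k m ++ [(k, m)] else []).length ≤ m + 1 := by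
        split_ifs
        · have := loopIdx_length (s := s) (j := k) m
          simp only [List.length_append, List.length_cons, List.length_nil]
          omega
        · simp
      calc _ ≤ k * (m + 1) + (m + 1) := Nat.add_le_add ih this
        _ = (k + 1) * (m + 1) := by ring

/-- locating a time in the block structure -/
theorem exists_block {s : ℕ → ℕ} {N T : ℕ} (h0 : s 0 = 0) (hN : s N = T) {t : ℕ} (ht : t < T) :
    ∃ j < N, s j ≤ t ∧ t < s (j + 1) := by
  classical
  have hex : ∃ k, t < s k := ⟨N, by omega⟩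
  have h1 := Nat.find_spec hex
  have h2 : ∀ k < Nat.find hex, ¬ t < s k := fun k hk => Nat.find_min hex hk
  have h3 : Nat.find hex ≤ N := Nat.find_min' hex (by omega)
  have h4 : Nat.find hex ≠ 0 := by
    intro h
    rw [h, h0] at h1
    omega
  obtain ⟨j, hj⟩ := Nat.exists_eq_succ_of_ne_zero h4
  refine ⟨j, by omega, ?_, ?_⟩
  · have := h2 j (by omega)
    omega
  · rw [hj] at h1
    exact h1

end Pool.Agent.Helper42.Weiss
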