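import Pool.Agent.Helper42.Weiss.GlueCore

open Set Filter Topology

namespace Pool.Agent.Helper42.Weiss

variable {X : Type*}

/-- pigeonhole on the loop pattern -/
theorem exists_pattern [TopologicalSpace X] [CompactSpace X] [Nonempty X] {D : X → X → ℝ}
    (hD : IsEquivMetric D) {F : X → X} {ε ε' η₀ δ : ℝ} (hε' : 0 < ε') (h2 : ε' ≤ ε - 2 * η₀)
    {n : ℕ} {κ : X → Fin n}
    (hκε : ∀ x y, κ x = κ y → D x y < ε) (hκδ : ∀ x y, κ x = κ y → D x y < δ) {T G : ℕ}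
    (hεpos : 0 < ε)
    (hglue : ∀ L : List (X × ℕ), (∀ a ∈ L, 1 ≤ a.2 ∧ a.2 ≤ T) →
      L.IsChain (fun a b => D (F^[a.2] a.1) b.1 < δ) →
      ∃ (z : X) (P : List ℕ), P.length = L.length ∧ (∀ p ∈ P, p ≤ G) ∧ Traces F D η₀ z L P) :
    ∃ K : ℕ, 0 < K ∧ sepNum D F ε T ≤ (T + 1) ^ (n + 1) * n ^ (n + 1) * K ∧
      ∀ m : ℕ, K ^ (m + 1) ≤ (G + 1) ^ (n * (m + 1)) *
        sepNum D F ε' ((m + 1) * (T + n * G)) := by
  classical
  obtain ⟨E, hE, hsep⟩ := exists_sepNum hD F hεpos T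
  have hEne : E.Nonempty := by
    rw [← Finset.card_pos, hE]
    exact one_le_sepNum hD F hεpos T
  choose s h0 hn hmono hle hw using fun x : X => exists_breaks (fun t => κ (F^[t] x)) T
  obtain ⟨b, hb⟩ := exists_big_fiber E hEne
    (fun x => ((fun j : Fin (n + 1) => (⟨s x j, Nat.lt_succ_of_le (hle x j)⟩ : Fin (T + 1))),
      (fun j : Fin (n + 1) => κ (F^[s x j] x))))
  set E₁ := E.filter (fun x => ((fun j : Fin (n + 1) =>
    (⟨s x j, Nat.lt_succ_of_le (hle x j)⟩ : Fin (T + 1))),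
      (fun j : Fin (n + 1) => κ (F^[s x j] x))) = b) with hE₁
  have hcard : Fintype.card ((Fin (n + 1) → Fin (T + 1)) × (Fin (n + 1) → Fin n)) =
      (T + 1) ^ (n + 1) * n ^ (n + 1) := by
    simp
  rw [hcard] at hb
  have hE₁ne : E₁.Nonempty := by
    by_contra hcon
    rw [Finset.not_nonempty_iff_eq_empty] at hcon
    rw [hcon] at hb
    simp at hb
    rw [hb] at hEne
    exact absurd hEne (by simp)
  obtain ⟨x₀, hx₀⟩ := hE₁ne
  have hpat : ∀ x ∈ E₁, (∀ j ≤ n, s x j = s x₀ j) ∧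
      ∀ j ≤ n, κ (F^[s x j] x) = κ (F^[s x₀ j] x₀) := by
    intro x hx
    rw [hE₁, Finset.mem_filter] at hx hx₀
    have h3 := hx.2.trans hx₀.2.symm
    rw [Prod.mk.injEq] at h3
    constructor
    · intro j hj
      have := congrFun h3.1 ⟨j, Nat.lt_succ_of_le hj⟩
      simpa using this
    · intro j hj
      have := congrFun h3.2 ⟨j, Nat.lt_succ_of_le hj⟩
      simpa using this
  refine ⟨E₁.card, Finset.card_pos.2 ⟨x₀, hx₀⟩, by rw [← hE]; exact hb, fun m => ?_⟩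
  refine glue_core hD hε' h2 hκε hκδ hglue (hsep.subset (Finset.filter_subset _ _))
    (s := s x₀) (c := fun j => κ (F^[s x₀ j] x₀)) (h0 x₀) (hn x₀) (hmono x₀) (hle x₀) ?_ ?_ m
  · intro x hx j hj
    obtain ⟨h3, h4⟩ := hpat x hx
    have h5 := h4 j hj
    rw [h3 j hj] at h5
    exact h5
  · intro x hx j hj hlt
    obtain ⟨h3, h4⟩ := hpat x hx
    rw [← h3 j hj.le, ← h3 (j + 1) hj] at hlt
    have h5 := hw x j hj hlt
    rw [← h3 (j + 1) hj]
    show κ (F^[s x (j + 1) - 1] x) = κ (F^[s x₀ j] x₀)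
    rw [← h4 j hj.le]
    exact h5

theorem Glues.crit [TopologicalSpace X] [CompactSpace X] {D : X → X → ℝ}
    (hD : IsEquivMetric D) {F : X → X} (hG : Glues F D) :
    Nonempty X → ∀ ε' ε, 0 < ε' → ε' < ε → ∀ η > 0, ∃ N : ℕ, ∀ T₁ ≥ N, ∃ P : ℕ, 0 < P ∧
      (P : ℝ) ≤ (1 + η) * T₁ ∧ ∃ q₀ : ℕ, ∀ q ≥ q₀,
        (q : ℝ) * (Real.log (sepNum D F ε T₁) - η * T₁) ≤ Real.log (sepNum D F ε' (q * P)) := by
  intro hX ε' ε hε' hlt η hη
  have hε := hε'.trans hlt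
  obtain ⟨δ₀, hδ₀, g, hg, hglue⟩ := hG ((ε - ε') / 2) (by linarith)
  obtain ⟨n, hn, κ, hκ⟩ := exists_label hD (lt_min hε hδ₀)
  have hκε : ∀ x y, κ x = κ y → D x y < ε := fun x y h => (hκ x y h).trans_le (min_le_left _ _)
  have hκδ : ∀ x y, κ x = κ y → D x y < δ₀ := fun x y h => (hκ x y h).trans_le (min_le_right _ _)
  -- asymptotics
  have hn0 : (0 : ℝ) < n := by exact_mod_cast hn
  have hlim1 : ∀ᶠ T : ℕ in atTop, (g T : ℝ) / T ≤ min 1 (η / n) := by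
    have : (0 : ℝ) < min 1 (η / n) := lt_min one_pos (by positivity)
    exact (hg.eventually_le_const this)
  have hlim2 : Tendsto (fun T : ℕ => ((2 * n + 1 : ℕ) * Real.log ((T : ℝ) + 1) +
      (n + 1 : ℕ) * Real.log n) / T) atTop (𝓝 0) := by
    have h1 : Tendsto (fun T : ℕ => Real.log ((T : ℝ) + 1) / T) atTop (𝓝 0) := by
      have h3 : Tendsto (fun x : ℝ => Real.log x / x) atTop (𝓝 0) := by
        have := Real.isLittleO_log_id_atTop.tendsto_div_nhds_zero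
        simpa using this
      have h4 : Tendsto (fun T : ℕ => Real.log ((T : ℝ) + 1) / ((T : ℝ) + 1)) atTop (𝓝 0) :=
        h3.comp (tendsto_atTop_add_const_right _ _ tendsto_natCast_atTop_atTop)
      have h5 : Tendsto (fun T : ℕ => ((T : ℝ) + 1) / T) atTop (𝓝 1) := by
        have h6 : Tendsto (fun T : ℕ => (1 : ℝ) + 1 / T) atTop (𝓝 (1 + 0)) :=
          tendsto_const_nhds.add tendsto_one_div_atTop_nhds_zero_nat
        rw [add_zero] at h6
        refine h6.congr' ?_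
        filter_upwards [eventually_gt_atTop 0] with T hT
        have : (T : ℝ) ≠ 0 := by positivity
        field_simp
      have h7 := h4.mul h5
      rw [zero_mul] at h7
      refine h7.congr' ?_
      filter_upwards [eventually_gt_atTop 0] with T hT
      have h8 : (T : ℝ) + 1 ≠ 0 := by positivity
      field_simp
    have h2 : Tendsto (fun T : ℕ => Real.log (n : ℝ) / T) atTop (𝓝 0) :=
      tendsto_const_div_atTop_nhds_zero_nat _
    have h3 := (h1.const_mul ((2 * n + 1 : ℕ) : ℝ)).add (h2.const_mul ((n + 1 : ℕ) : ℝ))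
    rw [mul_zero, mul_zero, add_zero] at h3
    refine h3.congr (fun T => ?_)
    ring
  have hlim2' := hlim2.eventually_le_const hη
  obtain ⟨N, hN⟩ := eventually_atTop.1 (hlim1.and hlim2')
  refine ⟨max N 1, fun T₁ hT₁ => ?_⟩
  have hTN : N ≤ T₁ := (le_max_left _ _).trans hT₁
  have hT1 : 1 ≤ T₁ := (le_max_right _ _).trans hT₁
  have hTr : (0 : ℝ) < T₁ := by exact_mod_cast hT1
  obtain ⟨ha, hb⟩ := hN T₁ hTN
  rw [div_le_iff₀ hTr] at ha hb
  have hgT : (g T₁ : ℝ) ≤ T₁ := by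
    calc (g T₁ : ℝ) ≤ min 1 (η / n) * T₁ := ha
      _ ≤ 1 * T₁ := by gcongr; exact min_le_left _ _
      _ = T₁ := one_mul _
  have hgη : (n : ℝ) * g T₁ ≤ η * T₁ := by
    calc (n : ℝ) * g T₁ ≤ n * (min 1 (η / n) * T₁) := by gcongr
      _ ≤ n * (η / n * T₁) := by gcongr; exact min_le_right _ _
      _ = η * T₁ := by field_simp
  obtain ⟨K, hK, hK1, hK2⟩ := exists_pattern hD (F := F) hε' (η₀ := (ε - ε') / 2) (by linarith)
    hκε hκδ (T := T₁) (G := g T₁) hε (fun L hL hc => hglue T₁ L hL hc)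
  refine ⟨T₁ + n * g T₁, by omega, ?_, 1, fun q hq => ?_⟩
  · push_cast
    linarith
  obtain ⟨m, rfl⟩ : ∃ m, q = m + 1 := ⟨q - 1, by omega⟩
  have hKr : (0 : ℝ) < K := by exact_mod_cast hK
  have hs1 : (1 : ℝ) ≤ sepNum D F ε T₁ := by exact_mod_cast one_le_sepNum hD F hε T₁
  have hs2 : (1 : ℝ) ≤ sepNum D F ε' ((m + 1) * (T₁ + n * g T₁)) := by
    exact_mod_cast one_le_sepNum hD F hε' _
  have h3 : Real.log (sepNum D F ε T₁) ≤
      (n + 1 : ℕ) * Real.log ((T₁ : ℝ) + 1) + (n + 1 : ℕ) * Real.log n + Real.log K := by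
    have h4 : (sepNum D F ε T₁ : ℝ) ≤ ((T₁ : ℝ) + 1) ^ (n + 1) * (n : ℝ) ^ (n + 1) * K := by
      exact_mod_cast hK1
    have h5 := Real.log_le_log (by linarith) h4
    rwa [Real.log_mul (by positivity) (by positivity), Real.log_mul (by positivity)
      (by positivity), Real.log_pow, Real.log_pow] at h5
  have h4 : ((m + 1 : ℕ) : ℝ) * Real.log K ≤ (n * (m + 1) : ℕ) * Real.log ((g T₁ : ℝ) + 1) +
      Real.log (sepNum D F ε' ((m + 1) * (T₁ + n * g T₁))) := by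
    have h5 : (K : ℝ) ^ (m + 1) ≤ ((g T₁ : ℝ) + 1) ^ (n * (m + 1)) *
        sepNum D F ε' ((m + 1) * (T₁ + n * g T₁)) := by exact_mod_cast hK2 m
    have h6 := Real.log_le_log (by positivity) h5
    rwa [Real.log_mul (by positivity) (by linarith), Real.log_pow, Real.log_pow] at h6
  have h5 : Real.log ((g T₁ : ℝ) + 1) ≤ Real.log ((T₁ : ℝ) + 1) :=
    Real.log_le_log (by positivity) (by linarith)
  have h6 : ((m + 1 : ℕ) : ℝ) * (Real.log (sepNum D F ε T₁) - η * T₁) ≤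
      ((m + 1 : ℕ) : ℝ) * ((n + 1 : ℕ) * Real.log ((T₁ : ℝ) + 1) + (n + 1 : ℕ) * Real.log n +
        Real.log K - η * T₁) := by
    gcongr
  refine h6.trans ?_
  have h7 : ((m + 1 : ℕ) : ℝ) * ((2 * n + 1 : ℕ) * Real.log ((T₁ : ℝ) + 1) +
      (n + 1 : ℕ) * Real.log n) ≤ ((m + 1 : ℕ) : ℝ) * (η * T₁) := by gcongr
  have h8 : ((n * (m + 1) : ℕ) : ℝ) * Real.log ((g T₁ : ℝ) + 1) ≤
      (n * (m + 1) : ℕ) * Real.log ((T₁ : ℝ) + 1) := by gcongr
  push_cast at h4 h7 h8 ⊢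
  nlinarith

/-- **Weiss' question for gluing systems.** -/
theorem weiss_of_glues [TopologicalSpace X] [CompactSpace X] {d : X → X → ℝ}
    (hd : IsEquivMetric d) {F : X → X} (hG : Glues F d) :
    (∀ D : X → X → ℝ, IsEquivMetric D → {ε : ℝ | 0 < ε ∧ ¬ HasSepRate D F ε}.Countable) ∧
      ∃ D : X → X → ℝ, IsEquivMetric D ∧ ∀ ε > 0, HasSepRate D F ε := by
  have h1 : ∀ D : X → X → ℝ, IsEquivMetric D →
      {ε : ℝ | 0 < ε ∧ ¬ HasSepRate D F ε}.Countable := fun D hD =>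
    criterion hD F (Glues.crit hD (hG.transfer hD hd))
  exact ⟨h1, repair F hd (h1 d hd)⟩

end Pool.Agent.Helper42.Weiss
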