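import Pool.Agent.Helper42.Weiss.UEPhase

open Set Filter Topology

namespace Pool.Agent.Helper42.Weiss

variable {X : Type*}

theorem card_filter_prod {q K : ℕ} {W : Type*} [DecidableEq W] (g : Fin q → Fin K → W) (b : W) :
    (Finset.univ.filter (fun p : Fin q × Fin K => g p.1 p.2 = b)).card =
      ∑ l, (Finset.univ.filter (fun i => g l i = b)).card := by
  rw [← Finset.univ_product_univ]
  simp only [Finset.card_filter]
  rw [Finset.sum_product]

theorem sum_type {ι W : Type*} [Fintype ι] [Fintype W] [DecidableEq W] (w : ι → W) :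
    ∑ b, (Finset.univ.filter (fun i => w i = b)).card = Fintype.card ι := by
  rw [← Finset.card_univ, Finset.card_eq_sum_card_fiberwise (f := w) (t := Finset.univ)]
  intro i _
  exact Finset.mem_coe.2 (Finset.mem_univ _)

/-- a subcode with constant block statistics for all phases and constant ends -/
theorem exists_uniform_code (F : X → X) {n : ℕ} (κ : X → Fin n) (L K : ℕ) {E : Finset X}
    (hE : E.Nonempty) :
    ∃ E' ⊆ E, E'.Nonempty ∧
      E.card ≤ n ^ L * (n ^ L * ((K + 1) ^ n ^ L) ^ L) * E'.card ∧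
      ∀ x ∈ E', ∀ y ∈ E', blk F κ L x = blk F κ L y ∧
        blk F κ L (F^[K * L] x) = blk F κ L (F^[K * L] y) ∧
        ∀ (r : Fin L) (b : Fin L → Fin n), cnt F κ L K x r b = cnt F κ L K y r b := by
  classical
  let φ : X → (Fin L → Fin n) × (Fin L → Fin n) × (Fin L → (Fin L → Fin n) → Fin (K + 1)) :=
    fun x => (blk F κ L x, blk F κ L (F^[K * L] x),
    (fun (r : Fin L) (b : Fin L → Fin n) =>
      (⟨cnt F κ L K x r b, Nat.lt_succ_of_le (cnt_le F κ L K x r b)⟩ : Fin (K + 1))))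
  obtain ⟨c, hc⟩ := exists_big_fiber E hE φ
  refine ⟨E.filter (fun x => φ x = c), Finset.filter_subset _ _, ?_, ?_, ?_⟩
  rotate_left
  · simpa using hc
  · intro x hx y hy
    rw [Finset.mem_filter] at hx hy
    have h := hx.2.trans hy.2.symm
    rw [Prod.mk.injEq, Prod.mk.injEq] at h
    refine ⟨h.1, h.2.1, fun r b => ?_⟩
    have := congrFun (congrFun h.2.2 r) b
    simpa using this
  · by_contra hcon
    rw [Finset.not_nonempty_iff_eq_empty] at hcon
    rw [hcon] at hc
    simp only [Finset.card_empty, mul_zero, Nat.le_zero, Finset.card_eq_zero] at hc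
    rw [hc] at hE
    exact absurd hE (by simp)

theorem block_cases {L K ρ t : ℕ} (hL : 0 < L) (hρ : ρ < L) (ht : t < (K + 1) * L) :
    (∃ s : Fin L, t = s) ∨ (∃ s : Fin L, t = K * L + s) ∨
      ∃ (i : Fin K) (u : Fin L), t = ρ + L * i + u := by
  rcases lt_or_ge t L with h1 | h1
  · exact Or.inl ⟨⟨t, h1⟩, rfl⟩
  rcases lt_or_ge t (K * L) with h2 | h2
  · right; right
    have h3 := Nat.div_add_mod (t - ρ) L
    have h4 := Nat.mod_lt (t - ρ) hL
    have h5 : (t - ρ) / L < K := by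
      rw [Nat.div_lt_iff_lt_mul hL]
      omega
    refine ⟨⟨(t - ρ) / L, h5⟩, ⟨(t - ρ) % L, h4⟩, ?_⟩
    show t = ρ + L * ((t - ρ) / L) + (t - ρ) % L
    omega
  · right; left
    refine ⟨⟨t - K * L, ?_⟩, ?_⟩
    · rw [Nat.add_mul, Nat.one_mul] at ht
      omega
    · show t = K * L + (t - K * L)
      omega

/-- strong separation of blocks -/
def Sepd (D : X → X → ℝ) {n : ℕ} (κ : X → Fin n) (ε' : ℝ) {L : ℕ} (b b' : Fin L → Fin n) : Prop :=
  ∃ s : Fin L, ∀ x y, κ x = b s → κ y = b' s → ε' < D x y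

theorem time_lt {L K q ρ i l s : ℕ} (hρ : ρ < L) (hi : i < K) (hl : l < q) (hs : s < L) :
    s + ((ρ + L * i) + l * ((K + 1) * L)) < q * ((K + 1) * L) := by
  have h1 : L * i + L ≤ L * K := by nlinarith
  have h2 : l * ((K + 1) * L) + (K + 1) * L ≤ q * ((K + 1) * L) := by
    calc l * ((K + 1) * L) + (K + 1) * L = (l + 1) * ((K + 1) * L) := by ring
      _ ≤ q * ((K + 1) * L) := Nat.mul_le_mul_right _ hl
  have h3 : (K + 1) * L = L * K + L := by ring
  omega

theorem name_eq {F : X → X} {n : ℕ} {κ : X → Fin n} {L K q : ℕ} (hL : 0 < L) {r : Fin q → ℕ}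
    (hr : ∀ l, r l < L) {x y : X}
    (h1 : ∀ l : Fin q, blk F κ L (F^[l * ((K + 1) * L)] x) = blk F κ L (F^[l * ((K + 1) * L)] y))
    (h2 : ∀ l : Fin q, blk F κ L (F^[K * L] (F^[l * ((K + 1) * L)] x)) =
      blk F κ L (F^[K * L] (F^[l * ((K + 1) * L)] y)))
    (h3 : ∀ (l : Fin q) (i : Fin K), blk F κ L (F^[r l + L * i] (F^[l * ((K + 1) * L)] x)) =
      blk F κ L (F^[r l + L * i] (F^[l * ((K + 1) * L)] y))) {t : ℕ}
    (ht : t < q * ((K + 1) * L)) : κ (F^[t] x) = κ (F^[t] y) := by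
  have hT : 0 < (K + 1) * L := by positivity
  have hl : t / ((K + 1) * L) < q := by rwa [Nat.div_lt_iff_lt_mul hT]
  have hs := Nat.mod_lt t hT
  have hdm := Nat.mod_add_div' t ((K + 1) * L)
  set l : Fin q := ⟨t / ((K + 1) * L), hl⟩ with hldef
  have ht' : t = t % ((K + 1) * L) + (l : ℕ) * ((K + 1) * L) := hdm.symm
  rw [ht', Function.iterate_add_apply, Function.iterate_add_apply]
  rcases block_cases hL (hr l) hs with ⟨s, hs'⟩ | ⟨s, hs'⟩ | ⟨i, u, hs'⟩
  · rw [hs']
    exact congrFun (h1 l) s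
  · rw [hs', Nat.add_comm (K * L), Function.iterate_add_apply, Function.iterate_add_apply]
    exact congrFun (h2 l) s
  · rw [hs', Nat.add_comm _ (u : ℕ), Function.iterate_add_apply F u,
      Function.iterate_add_apply F u]
    exact congrFun (h3 l i) u

theorem block_sepd [TopologicalSpace X] {D : X → X → ℝ} (hD : IsEquivMetric D)
    {F : X → X} {ε ε' ρ : ℝ} (hρ : 2 * ρ ≤ ε - ε') (hρε : ρ ≤ ε)
    {n : ℕ} {κ : X → Fin n} (hκ : ∀ x y, κ x = κ y → D x y < ρ) {L K r : ℕ} (hL : 0 < L)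
    (hr : r < L) {E : Finset X} (hsep : IsSep D F ε ((K + 1) * L) E) {x y : X} (hx : x ∈ E)
    (hy : y ∈ E) (hne : x ≠ y) (h1 : blk F κ L x = blk F κ L y)
    (h2 : blk F κ L (F^[K * L] x) = blk F κ L (F^[K * L] y)) :
    ∃ i : Fin K, Sepd D κ ε' (blk F κ L (F^[r + L * i] x)) (blk F κ L (F^[r + L * i] y)) := by
  obtain ⟨t, ht, hlt⟩ := hsep x hx y hy hne
  rcases block_cases hL hr ht with ⟨s, hs⟩ | ⟨s, hs⟩ | ⟨i, u, hs⟩
  · exfalso
    have h3 : κ (F^[t] x) = κ (F^[t] y) := by
      rw [hs]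
      exact congrFun h1 s
    linarith [hκ _ _ h3]
  · exfalso
    have h3 : κ (F^[t] x) = κ (F^[t] y) := by
      rw [hs, Nat.add_comm (K * L), Function.iterate_add_apply, Function.iterate_add_apply]
      exact congrFun h2 s
    linarith [hκ _ _ h3]
  · refine ⟨i, u, fun a b ha hb => ?_⟩
    have e1 : F^[u] (F^[r + L * i] x) = F^[t] x := by
      rw [hs, Nat.add_comm _ (u : ℕ), Function.iterate_add_apply F u]
    have e2 : F^[u] (F^[r + L * i] y) = F^[t] y := by
      rw [hs, Nat.add_comm _ (u : ℕ), Function.iterate_add_apply F u]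
    have h3 : D a (F^[t] x) < ρ := by
      rw [← e1]
      exact hκ _ _ ha
    have h4 : D b (F^[t] y) < ρ := by
      rw [← e2]
      exact hκ _ _ hb
    have h5 := hD.triangle (F^[t] x) a (F^[t] y)
    have h6 := hD.triangle a b (F^[t] y)
    rw [hD.symm (F^[t] x) a] at h5
    linarith

open Classical in
/-- functions with sparse support -/
def SparseT (ι β : Type) [Fintype ι] (k : ℕ) : Type :=
  {e : ι → Option β // (Finset.univ.filter (fun i => e i ≠ none)).card ≤ k}

/-- the underlying function -/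
def SparseT.val {ι β : Type} [Fintype ι] {k : ℕ} (z : SparseT ι β k) : ι → Option β :=
  Subtype.val z

noncomputable instance (ι β : Type) [Fintype ι] [Fintype β] (k : ℕ) : Fintype (SparseT ι β k) := by
  classical
  unfold SparseT
  infer_instance

theorem card_sparseT (ι β : Type) [Fintype ι] [Fintype β] (k : ℕ) {t : ℝ} (ht : 0 < t)
    (ht1 : t ≤ 1) : (Fintype.card (SparseT ι β k) : ℝ) * t ^ k ≤
      (1 + t * Fintype.card β) ^ Fintype.card ι := by
  classical
  have h := card_sparse_le (ι := ι) (β := β) k ht ht1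
  have h2 : Fintype.card (SparseT ι β k) = (Finset.univ.filter (fun e : ι → Option β =>
      (Finset.univ.filter (fun i => e i ≠ none)).card ≤ k)).card := by
    rw [← Fintype.card_subtype]
    unfold SparseT
    exact Fintype.card_congr (Equiv.refl _)
  rw [h2]
  exact h

theorem ue_arith {Ec E'c A N G Sp G' tk U V NL sep : ℝ} {q : ℕ} (h0 : 0 ≤ Ec)
    (h01 : 0 ≤ N) (h02 : 0 ≤ tk) (h03 : 0 ≤ V) (h04 : 0 ≤ A) (h05 : 0 ≤ E'c) (h06 : 0 ≤ G')
    (h07 : 0 ≤ NL) (h08 : 0 ≤ sep) (h09 : 0 ≤ Sp)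
    (h1 : Ec ≤ A * E'c) (h2 : N ≤ 2 * G) (h3 : G ≤ Sp * V * G') (h4 : Sp * tk ≤ U)
    (h5 : E'c ^ q * G' ≤ NL * sep) :
    Ec ^ q * N * tk ≤ 2 * U * V * A ^ q * NL * sep := by
  have hU : 0 ≤ U := le_trans (mul_nonneg h09 h02) h4
  have hG : N ≤ 2 * (Sp * V * G') := by linarith
  have h6 : Ec ^ q ≤ (A * E'c) ^ q := pow_le_pow_left₀ h0 h1 q
  have h7 : Ec ^ q * N * tk ≤ (A * E'c) ^ q * (2 * (Sp * V * G')) * tk := by
    have h8 : 0 ≤ (A * E'c) ^ q := pow_nonneg (mul_nonneg h04 h05) q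
    exact mul_le_mul_of_nonneg_right (mul_le_mul h6 hG h01 h8) h02
  have h8 : (A * E'c) ^ q * (2 * (Sp * V * G')) * tk =
      2 * (Sp * tk) * V * A ^ q * (E'c ^ q * G') := by
    rw [mul_pow]
    ring
  have h9 : 0 ≤ V * A ^ q * (E'c ^ q * G') := by positivity
  have h10 : 2 * (Sp * tk) * V * A ^ q * (E'c ^ q * G') ≤ 2 * U * V * A ^ q * (E'c ^ q * G') := by
    have : 2 * (Sp * tk) * V * A ^ q * (E'c ^ q * G') = (Sp * tk) * (2 * (V * A ^ q *
      (E'c ^ q * G'))) := by ring
    rw [this]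
    have h11 : 2 * U * V * A ^ q * (E'c ^ q * G') = U * (2 * (V * A ^ q * (E'c ^ q * G'))) := by
      ring
    rw [h11]
    exact mul_le_mul_of_nonneg_right h4 (by positivity)
  have h11 : 2 * U * V * A ^ q * (E'c ^ q * G') ≤ 2 * U * V * A ^ q * (NL * sep) := by
    have : 0 ≤ 2 * U * V * A ^ q := by positivity
    exact mul_le_mul_of_nonneg_left h5 this
  calc _ ≤ _ := h7
    _ = _ := h8
    _ ≤ _ := h10
    _ ≤ _ := h11
    _ = _ := by ring

open Classical in
theorem ue_comb [TopologicalSpace X] [CompactSpace X] {D : X → X → ℝ} (hD : IsEquivMetric D)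
    {F : X → X} {ε ε' ρ : ℝ} (hε' : 0 < ε') (hρ : 2 * ρ ≤ ε - ε') (hρε : ρ ≤ ε)
    {n : ℕ} {κ : X → Fin n} (hκ : ∀ x y, κ x = κ y → D x y < ρ) {L K q : ℕ} (hL : 0 < L)
    (hK : 0 < K) (hq : 0 < q) {p : (Fin L → Fin n) → ℝ} {δ : ℝ} (hδ : 0 < δ)
    (hfreq : ∀ (x : X) (b : Fin L → Fin n),
      |(Nat.card {t : Fin (K * L) // blk F κ L (F^[t] x) = b} : ℝ) - p b * (K * L : ℕ)| ≤
        δ * (K * L : ℕ))
    (hcheb : 4 * (Fintype.card (Fin L → Fin n) : ℝ) ≤ δ ^ 2 * q) {E : Finset X}
    (hEne : E.Nonempty) (hsep : IsSep D F ε ((K + 1) * L) E)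
    {k : ℕ} (hk : Fintype.card (Fin L → Fin n) * (4 * δ * q * K) ≤ (k : ℝ)) :
    ∃ E'c G'c Gc : ℕ, E.card ≤ n ^ L * (n ^ L * ((K + 1) ^ n ^ L) ^ L) * E'c ∧
      (names F κ (q * ((K + 1) * L))).card ≤ 2 * Gc ∧
      Gc ≤ Fintype.card (SparseT (Fin q × Fin K) ((Fin L → Fin n) × (Fin L → Fin n)) k) *
        ((n ^ L) ^ q * (n ^ L) ^ q) * G'c ∧
      E'c ^ q * G'c ≤ (names F κ L).card ^ (q * K) * sepNum D F ε' (q * ((K + 1) * L)) := by
  set T₁ := (K + 1) * L with hT₁
  set T₂ := q * T₁ with hT₂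
  obtain ⟨E', hE'E, hE'ne, hE'card, hE'⟩ := exists_uniform_code F κ L K hEne
  obtain ⟨x₀, hx₀⟩ := hE'ne
  haveI hneE : Nonempty E' := ⟨⟨x₀, hx₀⟩⟩
  -- representatives of names
  choose rep hrep using fun w : names F κ T₂ => mem_names.1 w.2
  have hKr : (0 : ℝ) < K := by exact_mod_cast hK
  have hLr : (0 : ℝ) < L := by exact_mod_cast hL
  have hqr : (0 : ℝ) < q := by exact_mod_cast hq
  -- phase vector
  obtain ⟨r, hr0, hr1⟩ := choose_phase (A := names F κ T₂) (W := Fin L → Fin n) q L hL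
    (fun b _ s => (cnt F κ L K x₀ s b : ℝ))
    (fun w b l s => (cnt F κ L K (F^[l * T₁] (rep w)) s b : ℝ)) K δ hKr.le
    (fun b l s => ⟨by positivity, by exact_mod_cast cnt_le F κ L K x₀ s b⟩)
    (fun w b l s => ⟨by positivity, by exact_mod_cast cnt_le F κ L K _ s b⟩) hδ hcheb hq
  -- means
  have hmean : ∀ (x : X) (b : Fin L → Fin n),
      |(∑ s : Fin L, (cnt F κ L K x s b : ℝ)) / L - K * p b| ≤ δ * K := by
    intro x b
    have h1 := sum_cnt F κ L K x b
    have h2 := hfreq x b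
    rw [← h1] at h2
    push_cast at h2
    have h3 : (∑ s : Fin L, (cnt F κ L K x s b : ℝ)) / L - K * p b =
        ((∑ s : Fin L, (cnt F κ L K x s b : ℝ)) - p b * (K * L)) / L := by
      field_simp
    rw [h3, abs_div, abs_of_pos hLr, div_le_iff₀ hLr]
    calc _ ≤ δ * (K * L) := h2
      _ = δ * K * L := by ring
  have hmeans : ∀ (x : Fin q → X) (b : Fin L → Fin n),
      |∑ l : Fin q, (∑ s : Fin L, (cnt F κ L K (x l) s b : ℝ)) / L - q * (K * p b)| ≤
        δ * q * K := by
    intro x b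
    have h1 : ∑ l : Fin q, (∑ s : Fin L, (cnt F κ L K (x l) s b : ℝ)) / L - q * (K * p b) =
        ∑ l : Fin q, ((∑ s : Fin L, (cnt F κ L K (x l) s b : ℝ)) / L - K * p b) := by
      rw [Finset.sum_sub_distrib]
      simp
    rw [h1]
    calc _ ≤ ∑ l : Fin q, |(∑ s : Fin L, (cnt F κ L K (x l) s b : ℝ)) / L - K * p b| :=
          Finset.abs_sum_le_sum_abs _ _
      _ ≤ ∑ _l : Fin q, δ * K := Finset.sum_le_sum (fun l _ => hmean (x l) b)
      _ = δ * q * K := by simp; ring
  -- the target type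
  let τ : (Fin L → Fin n) → ℕ := fun b => ∑ l : Fin q, cnt F κ L K x₀ (r l) b
  let code : (Fin q → E') → (Fin q × Fin K → (Fin L → Fin n)) := fun f pi =>
    blk F κ L (F^[(r pi.1 : ℕ) + L * pi.2] (f pi.1 : X))
  have hcode_type : ∀ f b, (Finset.univ.filter (fun i => code f i = b)).card = τ b := by
    intro f b
    have h1 := card_filter_prod (fun (l : Fin q) (i : Fin K) =>
      blk F κ L (F^[(r l : ℕ) + L * i] (f l : X))) b
    refine Eq.trans ?_ (h1.trans ?_)
    · rfl
    · refine Finset.sum_congr rfl (fun l _ => ?_)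
      exact (hE' _ (f l).2 _ hx₀).2.2 (r l) b
  have hτsum : ∑ b, τ b = Fintype.card (Fin q × Fin K) := by
    rw [← sum_type (code (fun _ => ⟨x₀, hx₀⟩))]
    exact Finset.sum_congr rfl (fun b _ => (hcode_type (fun _ => ⟨x₀, hx₀⟩) b).symm)
  have hτp : ∀ b, |(τ b : ℝ) - q * (K * p b)| ≤ 2 * δ * q * K := by
    intro b
    have h1 := hr0 b
    have h2 := hmeans (fun _ => x₀) b
    have h3 : (τ b : ℝ) = ∑ l : Fin q, (cnt F κ L K x₀ (r l) b : ℝ) := by
      simp [τ]
    rw [h3]
    rw [abs_le] at h1 h2 ⊢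
    constructor <;> linarith [h1.1, h1.2, h2.1, h2.2]
  -- words of names
  let word : names F κ T₂ → (Fin q × Fin K → (Fin L → Fin n)) := fun w pi =>
    blk F κ L (F^[(r pi.1 : ℕ) + L * pi.2] (F^[pi.1 * T₁] (rep w)))
  set G := Finset.univ.filter (fun w : names F κ T₂ => Good q L K δ
    (fun b l s => (cnt F κ L K (F^[l * T₁] (rep w)) s b : ℝ)) r) with hG
  have hword_type : ∀ w b, (Finset.univ.filter (fun i => word w i = b)).card =
      ∑ l : Fin q, cnt F κ L K (F^[l * T₁] (rep w)) (r l) b := by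
    intro w b
    have h1 := card_filter_prod (fun (l : Fin q) (i : Fin K) =>
      blk F κ L (F^[(r l : ℕ) + L * i] (F^[l * T₁] (rep w)))) b
    exact h1
  have hadj : ∀ w : names F κ T₂, ∃ v' : Fin q × Fin K → (Fin L → Fin n), w ∈ G →
      (∀ b, (Finset.univ.filter (fun i => v' i = b)).card = τ b) ∧
      (Finset.univ.filter (fun i => word w i ≠ v' i)).card ≤ k := by
    intro w
    obtain ⟨v', hv1, hv2⟩ := adjust_type (word w) τ hτsum
    refine ⟨v', fun hw => ⟨hv1, hv2.trans ?_⟩⟩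
    rw [hG, Finset.mem_filter] at hw
    have h1 : ∀ b, (((τ b : ℤ) - (Finset.univ.filter (fun i => word w i = b)).card).natAbs : ℝ) ≤
        4 * δ * q * K := by
      intro b
      have h2 := hw.2 b
      have h3 := hmeans (fun l => F^[l * T₁] (rep w)) b
      have h4 := hτp b
      rw [Nat.cast_natAbs, hword_type w b]
      push_cast
      rw [abs_le] at h2 h3 h4 ⊢
      constructor <;> linarith [h2.1, h2.2, h3.1, h3.2, h4.1, h4.2]
    have h2 : (((∑ b, ((τ b : ℤ) - (Finset.univ.filter (fun i => word w i = b)).card).natAbs :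
        ℕ)) : ℝ) ≤ k := by
      push_cast
      calc _ ≤ ∑ _b : Fin L → Fin n, 4 * δ * q * K := by
            refine Finset.sum_le_sum (fun b _ => ?_)
            have := h1 b
            push_cast at this
            exact this
        _ = Fintype.card (Fin L → Fin n) * (4 * δ * q * K) := by
            rw [Finset.sum_const, nsmul_eq_mul, Finset.card_univ]
        _ ≤ k := hk
    exact_mod_cast h2
  choose v' hv' using hadj
  -- data
  let e : names F κ T₂ → (Fin q × Fin K → Option ((Fin L → Fin n) × (Fin L → Fin n))) :=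
    fun w i => if word w i = v' w i then none else some (word w i, v' w i)
  have he : ∀ w ∈ G, (Finset.univ.filter (fun i => e w i ≠ none)).card ≤ k := by
    intro w hw
    refine le_trans (le_of_eq ?_) (hv' w hw).2
    congr 1
    ext i
    simp only [Finset.mem_filter, Finset.mem_univ, true_and, e]
    by_cases h : word w i = v' w i <;> simp [h]
  let φ : names F κ T₂ → SparseT (Fin q × Fin K) ((Fin L → Fin n) × (Fin L → Fin n)) k ×
      (Fin q → Fin L → Fin n) × (Fin q → Fin L → Fin n) := fun w =>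
    (if h : (Finset.univ.filter (fun i => e w i ≠ none)).card ≤ k then ⟨e w, h⟩ else
      ⟨fun _ => none, by simp⟩,
     fun l => blk F κ L (F^[l * T₁] (rep w)),
     fun l => blk F κ L (F^[K * L] (F^[l * T₁] (rep w))))
  have hGne : G.Nonempty := by
    rw [← Finset.card_pos]
    have h1 : 0 < Fintype.card (names F κ T₂) :=
      Fintype.card_pos_iff.2 ⟨⟨_, blk_mem_names F κ T₂ x₀⟩⟩
    have h2 : Fintype.card (names F κ T₂) ≤ 2 * G.card := hr1
    omega
  obtain ⟨c, hc⟩ := exists_big_fiber G hGne φ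
  set G' := G.filter (fun w => φ w = c) with hG'
  have hG'e : ∀ w ∈ G', ∀ w' ∈ G', e w = e w' ∧
      (∀ l : Fin q, blk F κ L (F^[l * T₁] (rep w)) = blk F κ L (F^[l * T₁] (rep w'))) ∧
      ∀ l : Fin q, blk F κ L (F^[K * L] (F^[l * T₁] (rep w))) =
        blk F κ L (F^[K * L] (F^[l * T₁] (rep w'))) := by
    intro w hw w' hw'
    rw [hG', Finset.mem_filter] at hw hw'
    have h := hw.2.trans hw'.2.symm
    simp only [φ] at h
    rw [dif_pos (he w hw.1), dif_pos (he w' hw'.1)] at h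
    have h1 := congrArg (fun z => SparseT.val z.1) h
    have h2 := congrArg (fun z => z.2.1) h
    have h3 := congrArg (fun z => z.2.2) h
    exact ⟨h1, fun l => congrFun h2 l, fun l => congrFun h3 l⟩
  have hnames : ∀ w ∈ G', ∀ w' ∈ G', word w = word w' → w = w' := by
    intro w hw w' hw' hww
    obtain ⟨-, hg1, hg2⟩ := hG'e w hw w' hw'
    refine Subtype.ext ?_
    rw [← hrep w, ← hrep w']
    funext t
    exact name_eq hL (fun l : Fin q => (r l).2) (fun l => hg1 l) (fun l => hg2 l)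
      (fun l i => congrFun hww (l, i)) t.2
  have hvinj : Set.InjOn v' (G' : Set (names F κ T₂)) := by
    intro w hw w' hw' hvv
    refine hnames w hw w' hw' (funext fun i => ?_)
    have h1 := congrFun (hG'e w hw w' hw').1 i
    simp only [e] at h1
    by_cases h2 : word w i = v' w i
    · by_cases h3 : word w' i = v' w' i
      · rw [h2, h3, hvv]
      · rw [if_pos h2, if_neg h3] at h1
        exact absurd h1 (by simp)
    · by_cases h3 : word w' i = v' w' i
      · rw [if_neg h2, if_pos h3] at h1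
        exact absurd h1 (by simp)
      · rw [if_neg h2, if_neg h3, Option.some.injEq, Prod.mk.injEq] at h1
        exact h1.1
  have hcodesep : ∀ f f', f ≠ f' → ∃ j, Sepd D κ ε' (code f j) (code f' j) := by
    intro f f' hff
    obtain ⟨l, hl⟩ := Function.ne_iff.1 hff
    obtain ⟨i, hi⟩ := block_sepd hD hρ hρε hκ hL (r l).2 (hsep.subset hE'E) (f l).2 (f' l).2
      (fun h => hl (Subtype.ext h)) (hE' _ (f l).2 _ (f' l).2).1 (hE' _ (f l).2 _ (f' l).2).2.1
    exact ⟨(l, i), hi⟩
  have hirr : ∀ f j, ¬ Sepd D κ ε' (code f j) (code f j) := by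
    rintro f j ⟨s, hs⟩
    have := hs (F^[s] (F^[(r j.1 : ℕ) + L * j.2] (f j.1 : X)))
      (F^[s] (F^[(r j.1 : ℕ) + L * j.2] (f j.1 : X))) rfl rfl
    rw [hD.self] at this
    linarith
  have hcodeinj : Function.Injective code := by
    intro f f' hff
    by_contra hne
    obtain ⟨j, hj⟩ := hcodesep f f' hne
    rw [← hff] at hj
    exact hirr f j hj
  obtain ⟨π, hπ⟩ := exists_perm_inter τ (Finset.univ.image code) (G'.image v')
    (by
      intro w hw b
      obtain ⟨f, -, rfl⟩ := Finset.mem_image.1 hw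
      exact hcode_type f b)
    (by
      intro u hu b
      obtain ⟨w, hw, rfl⟩ := Finset.mem_image.1 hu
      exact (hv' w (Finset.mem_filter.1 hw).1).1 b)
  have h𝒯 : (Finset.univ.filter (fun w : Fin q × Fin K → (Fin L → Fin n) =>
      ∀ b, (Finset.univ.filter (fun i => w i = b)).card = τ b)).card ≤
      (names F κ L).card ^ (q * K) := by
    have h1 : (Finset.univ.filter (fun w : Fin q × Fin K → (Fin L → Fin n) =>
      ∀ b, (Finset.univ.filter (fun i => w i = b)).card = τ b)) ⊆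
      Fintype.piFinset (fun _ : Fin q × Fin K => names F κ L) := by
      intro w hw
      rw [Finset.mem_filter] at hw
      rw [Fintype.mem_piFinset]
      intro i
      have h2 := hw.2 (w i)
      have h3 := hcode_type (fun _ => ⟨x₀, hx₀⟩) (w i)
      have h4 : 0 < (Finset.univ.filter (fun i' => w i' = w i)).card :=
        Finset.card_pos.2 ⟨i, Finset.mem_filter.2 ⟨Finset.mem_univ _, rfl⟩⟩
      rw [h2, ← h3] at h4
      obtain ⟨j, hj⟩ := Finset.card_pos.1 h4
      rw [Finset.mem_filter] at hj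
      rw [← hj.2]
      exact blk_mem_names F κ L _
    refine (Finset.card_le_card h1).trans (le_of_eq ?_)
    rw [Fintype.card_piFinset]
    simp
  have hfin : ((G'.image v').filter (fun w => w ∘ π ∈ Finset.univ.image code)).card ≤
      sepNum D F ε' T₂ := by
    set G'' := G'.filter (fun w => v' w ∘ π ∈ Finset.univ.image code) with hG''
    have h1 : (G'.image v').filter (fun w => w ∘ π ∈ Finset.univ.image code) ⊆ G''.image v' := by
      intro u hu
      rw [Finset.mem_filter] at hu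
      obtain ⟨w, hw, rfl⟩ := Finset.mem_image.1 hu.1
      exact Finset.mem_image_of_mem _ (Finset.mem_filter.2 ⟨hw, hu.2⟩)
    have hkey : ∀ w ∈ G'', ∀ w' ∈ G'', w ≠ w' →
        ∃ t < T₂, ε' < D (F^[t] (rep w)) (F^[t] (rep w')) := by
      intro w hw w' hw' hne
      rw [hG'', Finset.mem_filter] at hw hw'
      obtain ⟨f, -, hf⟩ := Finset.mem_image.1 hw.2
      obtain ⟨f', -, hf'⟩ := Finset.mem_image.1 hw'.2
      have hff : f ≠ f' := by
        intro h
        rw [h] at hf
        have h2 : v' w ∘ π = v' w' ∘ π := hf.symm.trans hf'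
        have h3 : v' w = v' w' := by
          funext i
          have := congrFun h2 (π.symm i)
          simpa using this
        exact hne (hvinj hw.1 hw'.1 h3)
      obtain ⟨j, hj⟩ := hcodesep f f' hff
      have hj1 : code f j = v' w (π j) := congrFun hf j
      have hj2 : code f' j = v' w' (π j) := congrFun hf' j
      have he1 := congrFun (hG'e w hw.1 w' hw'.1).1 (π j)
      simp only [e] at he1
      have hw1 : word w (π j) = v' w (π j) := by
        by_contra h2
        rw [if_neg h2] at he1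
        by_cases h3 : word w' (π j) = v' w' (π j)
        · rw [if_pos h3] at he1
          exact absurd he1 (by simp)
        · rw [if_neg h3, Option.some.injEq, Prod.mk.injEq] at he1
          have h4 : code f j = code f' j := by rw [hj1, hj2, he1.2]
          rw [← h4] at hj
          exact hirr f j hj
      have hw2 : word w' (π j) = v' w' (π j) := by
        by_contra h2
        rw [if_pos hw1, if_neg h2] at he1
        exact absurd he1 (by simp)
      rw [hj1, hj2, ← hw1, ← hw2] at hj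
      obtain ⟨s, hs⟩ := hj
      refine ⟨(s : ℕ) + (((r (π j).1 : ℕ) + L * (π j).2) + (π j).1 * T₁), ?_, ?_⟩
      · exact time_lt (r (π j).1).2 (π j).2.2 (π j).1.2 s.2
      · rw [Function.iterate_add_apply, Function.iterate_add_apply,
          Function.iterate_add_apply F s, Function.iterate_add_apply F _ ((π j).1 * T₁)]
        exact hs _ _ rfl rfl
    have hinj : Set.InjOn rep (G'' : Set (names F κ T₂)) := by
      intro w hw w' hw' h
      by_contra hne
      obtain ⟨t, -, ht⟩ := hkey w hw w' hw' hne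
      rw [h, hD.self] at ht
      linarith
    refine (Finset.card_le_card h1).trans (Finset.card_image_le.trans ?_)
    rw [← Finset.card_image_of_injOn hinj]
    refine le_sepNum hD hε' ?_
    intro a ha b hb hab
    obtain ⟨w, hw, rfl⟩ := Finset.mem_image.1 ha
    obtain ⟨w', hw', rfl⟩ := Finset.mem_image.1 hb
    exact hkey w hw w' hw' (fun h => hab (by rw [h]))
  have h5 : E'.card ^ q * G'.card ≤ (names F κ L).card ^ (q * K) * sepNum D F ε' T₂ := by
    rw [Finset.card_image_of_injective _ hcodeinj, Finset.card_image_of_injOn hvinj] at hπ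
    have h6 : (Finset.univ : Finset (Fin q → E')).card = E'.card ^ q := by simp
    rw [h6] at hπ
    exact hπ.trans (Nat.mul_le_mul h𝒯 hfin)
  have h2 : (names F κ T₂).card ≤ 2 * G.card := by
    have h2 : Fintype.card (names F κ T₂) ≤ 2 * G.card := hr1
    simpa using h2
  refine ⟨E'.card, G'.card, G.card, hE'card, h2, ?_, h5⟩
  refine hc.trans (le_of_eq ?_)
  rw [Fintype.card_prod, Fintype.card_prod]
  simp

theorem ue_core [TopologicalSpace X] [CompactSpace X] {D : X → X → ℝ} (hD : IsEquivMetric D)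
    {F : X → X} {ε ε' ρ : ℝ} (hε' : 0 < ε') (hρ : 2 * ρ ≤ ε - ε') (hρε : ρ ≤ ε)
    {n : ℕ} {κ : X → Fin n} (hκ : ∀ x y, κ x = κ y → D x y < ρ) {L K q : ℕ} (hL : 0 < L)
    (hK : 0 < K) (hq : 0 < q) {p : (Fin L → Fin n) → ℝ} {δ : ℝ} (hδ : 0 < δ)
    (hfreq : ∀ (x : X) (b : Fin L → Fin n),
      |(Nat.card {t : Fin (K * L) // blk F κ L (F^[t] x) = b} : ℝ) - p b * (K * L : ℕ)| ≤
        δ * (K * L : ℕ))
    (hcheb : 4 * (Fintype.card (Fin L → Fin n) : ℝ) ≤ δ ^ 2 * q) {E : Finset X}
    (hEne : E.Nonempty) (hsep : IsSep D F ε ((K + 1) * L) E) {t : ℝ} (ht : 0 < t) (ht1 : t ≤ 1)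
    {k : ℕ} (hk : Fintype.card (Fin L → Fin n) * (4 * δ * q * K) ≤ (k : ℝ)) :
    (E.card : ℝ) ^ q * (names F κ (q * ((K + 1) * L))).card * t ^ k ≤
      2 * (1 + t * Fintype.card ((Fin L → Fin n) × (Fin L → Fin n))) ^ (q * K) *
      (((n : ℝ) ^ L) ^ q * ((n : ℝ) ^ L) ^ q) *
      ((n : ℝ) ^ L * ((n : ℝ) ^ L * (((K : ℝ) + 1) ^ n ^ L) ^ L)) ^ q *
      ((names F κ L).card : ℝ) ^ (q * K) * sepNum D F ε' (q * ((K + 1) * L)) := by
  obtain ⟨E'c, G'c, Gc, h1, h2, h3, h5⟩ := ue_comb hD hε' hρ hρε hκ hL hK hq hδ hfreq hcheb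
    hEne hsep hk
  have h4 := card_sparseT (Fin q × Fin K) ((Fin L → Fin n) × (Fin L → Fin n)) k ht ht1
  have hι : Fintype.card (Fin q × Fin K) = q * K := by simp
  rw [hι] at h4
  exact ue_arith (E'c := E'c) (G := Gc) (G' := G'c)
    (Sp := Fintype.card (SparseT (Fin q × Fin K) ((Fin L → Fin n) × (Fin L → Fin n)) k))
    (by positivity) (by positivity) (by positivity) (by positivity) (by positivity)
    (by positivity) (by positivity) (by positivity) (by positivity) (by positivity)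
    (by exact_mod_cast h1) (by exact_mod_cast h2) (by exact_mod_cast h3) h4
    (by exact_mod_cast h5)

end Pool.Agent.Helper42.Weiss
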