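import Pool.Agent.Helper42.Weiss.GlueCore

open Set Filter Topology

namespace Pool.Agent.Helper42.Weiss

variable {X : Type*}

/-- the `L`-name of `x` -/
def blk (F : X → X) {n : ℕ} (κ : X → Fin n) (L : ℕ) (x : X) : Fin L → Fin n :=
  fun s => κ (F^[s] x)

open Classical in
/-- realized names of length `L` -/
noncomputable def names (F : X → X) {n : ℕ} (κ : X → Fin n) (L : ℕ) : Finset (Fin L → Fin n) :=
  Finset.univ.filter (fun b => ∃ x, blk F κ L x = b)

theorem mem_names {F : X → X} {n : ℕ} {κ : X → Fin n} {L : ℕ} {b : Fin L → Fin n} :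
    b ∈ names F κ L ↔ ∃ x, blk F κ L x = b := by
  classical
  simp [names]

theorem blk_mem_names (F : X → X) {n : ℕ} (κ : X → Fin n) (L : ℕ) (x : X) :
    blk F κ L x ∈ names F κ L := mem_names.2 ⟨x, rfl⟩

theorem names_card_pos [Nonempty X] (F : X → X) {n : ℕ} (κ : X → Fin n) (L : ℕ) :
    0 < (names F κ L).card :=
  Finset.card_pos.2 ⟨_, blk_mem_names F κ L (Classical.arbitrary X)⟩

theorem names_card_add_le (F : X → X) {n : ℕ} (κ : X → Fin n) (S T : ℕ) :
    (names F κ (S + T)).card ≤ (names F κ S).card * (names F κ T).card := by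
  classical
  rw [← Finset.card_product]
  refine Finset.card_le_card_of_injOn
    (fun b => (fun s => b (Fin.castAdd T s), fun s => b (Fin.natAdd S s))) ?_ ?_
  · intro b hb
    obtain ⟨x, rfl⟩ := mem_names.1 (Finset.mem_coe.1 hb)
    rw [Finset.mem_coe, Finset.mem_product]
    refine ⟨mem_names.2 ⟨x, ?_⟩, mem_names.2 ⟨F^[S] x, ?_⟩⟩
    · funext s
      simp [blk]
    · funext s
      simp only [blk, Fin.val_natAdd]
      rw [← Function.iterate_add_apply, Nat.add_comm]
  · intro b _ b' _ h
    rw [Prod.mk.injEq] at h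
    funext i
    refine Fin.addCases (fun s => congrFun h.1 s) (fun s => congrFun h.2 s) i

theorem names_card_le (F : X → X) {n : ℕ} (κ : X → Fin n) (T : ℕ) :
    (names F κ T).card ≤ n ^ T := by
  refine (Finset.card_le_univ _).trans ?_
  simp

theorem names_subadditive [Nonempty X] (F : X → X) {n : ℕ} (κ : X → Fin n) :
    Subadditive (fun T => Real.log ((names F κ T).card)) := by
  intro S T
  have h1 : (0 : ℝ) < (names F κ S).card := by exact_mod_cast names_card_pos F κ S
  have h2 : (0 : ℝ) < (names F κ T).card := by exact_mod_cast names_card_pos F κ T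
  have h3 : (0 : ℝ) < (names F κ (S + T)).card := by exact_mod_cast names_card_pos F κ (S + T)
  rw [← Real.log_mul h1.ne' h2.ne']
  exact Real.log_le_log h3 (by exact_mod_cast names_card_add_le F κ S T)

/-- growth rate of names -/
theorem exists_names_rate [Nonempty X] (F : X → X) {n : ℕ} (κ : X → Fin n) :
    ∃ c : ℝ, 0 ≤ c ∧ (∀ T : ℕ, c * T ≤ Real.log ((names F κ T).card)) ∧
      ∀ η > 0, ∃ L : ℕ, 0 < L ∧ Real.log ((names F κ L).card) ≤ (c + η) * L := by
  have hsub := names_subadditive F κ
  have hbdd : BddBelow (range fun T : ℕ => Real.log ((names F κ T).card) / T) := by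
    refine ⟨0, ?_⟩
    rintro _ ⟨T, rfl⟩
    exact div_nonneg (Real.log_natCast_nonneg _) (Nat.cast_nonneg _)
  refine ⟨hsub.lim, ?_, ?_, ?_⟩
  · refine ge_of_tendsto' (hsub.tendsto_lim hbdd) (fun T => ?_)
    exact div_nonneg (Real.log_natCast_nonneg _) (Nat.cast_nonneg _)
  · intro T
    rcases Nat.eq_zero_or_pos T with h | h
    · subst h
      simpa using Real.log_natCast_nonneg _
    · have h1 := hsub.lim_le_div hbdd h.ne'
      rwa [le_div_iff₀ (by exact_mod_cast h)] at h1
  · intro η hη
    have h1 := (hsub.tendsto_lim hbdd).eventually_lt_const (show hsub.lim < hsub.lim + η by linarith)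
    obtain ⟨L, hL1, hL2⟩ := (h1.and (eventually_gt_atTop 0)).exists
    refine ⟨L, hL2, ?_⟩
    rw [div_lt_iff₀ (by exact_mod_cast hL2)] at hL1
    exact hL1.le

/-- occurrences of `b` in the blocks with phase `r` -/
def cnt (F : X → X) {n : ℕ} (κ : X → Fin n) (L K : ℕ) (x : X) (r : ℕ) (b : Fin L → Fin n) : ℕ :=
  (Finset.univ.filter (fun i : Fin K => blk F κ L (F^[r + L * i] x) = b)).card

theorem cnt_le (F : X → X) {n : ℕ} (κ : X → Fin n) (L K : ℕ) (x : X) (r : ℕ)
    (b : Fin L → Fin n) : cnt F κ L K x r b ≤ K := by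
  unfold cnt
  refine (Finset.card_le_univ _).trans ?_
  simp

theorem sum_cnt (F : X → X) {n : ℕ} (κ : X → Fin n) (L K : ℕ) (x : X) (b : Fin L → Fin n) :
    ∑ r : Fin L, cnt F κ L K x r b =
      Nat.card {t : Fin (K * L) // blk F κ L (F^[t] x) = b} := by
  classical
  rw [Nat.card_eq_fintype_card, Fintype.card_subtype]
  have h1 : (Finset.univ.filter (fun t : Fin (K * L) => blk F κ L (F^[t] x) = b)).card =
      (Finset.univ.filter (fun p : Fin K × Fin L =>
        blk F κ L (F^[(p.2 : ℕ) + L * p.1] x) = b)).card := by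
    symm
    refine Finset.card_bij (fun p _ => finProdFinEquiv p) ?_ ?_ ?_
    · intro p hp
      rw [Finset.mem_filter] at hp ⊢
      refine ⟨Finset.mem_univ _, ?_⟩
      simpa [finProdFinEquiv] using hp.2
    · intro p _ p' _ h
      exact finProdFinEquiv.injective h
    · intro t ht
      rw [Finset.mem_filter] at ht
      refine ⟨finProdFinEquiv.symm t, ?_, Equiv.apply_symm_apply _ _⟩
      rw [Finset.mem_filter]
      refine ⟨Finset.mem_univ _, ?_⟩
      have h2 : ((finProdFinEquiv (finProdFinEquiv.symm t) : Fin (K * L)) : ℕ) = t := by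
        rw [Equiv.apply_symm_apply]
      have h3 : ((finProdFinEquiv (finProdFinEquiv.symm t) : Fin (K * L)) : ℕ) =
          ((finProdFinEquiv.symm t).2 : ℕ) + L * (finProdFinEquiv.symm t).1 := rfl
      rw [← h3, h2]
      exact ht.2
  rw [h1, ← Finset.univ_product_univ]
  simp only [cnt, Finset.card_filter]
  rw [Finset.sum_product_right]

end Pool.Agent.Helper42.Weiss
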