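import Pool.Agent.Helper36.Weiss.U1
import Pool.Agent.Helper36.Weiss.U2
import Pool.Agent.Helper91.Weiss.U3
import Pool.Agent.Helper91.Weiss.U5
import Pool.Agent.Helper10.Weiss.U4
import Pool.Agent.Helper10.Weiss.U6

/-! The six packets used in the uniquely ergodic theorem. -/

namespace Pool.Agent.Helper42.Weiss

export Pool.Agent.Helper36.Weiss (uniform_freq exists_null_label)
export Pool.Agent.Helper91.Weiss (chebyshev_phases adjust_type)
export Pool.Agent.Helper10.Weiss (exists_perm_inter card_sparse_le)

end Pool.Agent.Helper42.Weiss
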