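import Pool.Agent.Helper42.Weiss.UENames
import Pool.Agent.Helper42.Weiss.UEPackets

open Set Filter Topology

namespace Pool.Agent.Helper42.Weiss

/-- the phase vector `r` is good for the family `f` -/
def Good {W : Type*} (q L : ℕ) (K δ : ℝ) (f : W → Fin q → Fin L → ℝ) (r : Fin q → Fin L) : Prop :=
  ∀ b, |∑ l, f b l (r l) - ∑ l, (∑ s, f b l s) / L| ≤ δ * q * K

open Classical in
theorem bad_le {W : Type*} [Fintype W] (q L : ℕ) (hL : 0 < L)
    (f : W → Fin q → Fin L → ℝ) (K δ : ℝ) (hK : 0 ≤ K)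
    (hf : ∀ b l r, 0 ≤ f b l r ∧ f b l r ≤ K) (hδ : 0 < δ)
    (hq : 4 * (Fintype.card W : ℝ) ≤ δ ^ 2 * q) (hqpos : 0 < q) :
    4 * ((Finset.univ.filter (fun r : Fin q → Fin L => ¬ Good q L K δ f r)).card : ℝ) ≤
      (L : ℝ) ^ q := by
  have h1 : ∀ b, ((Finset.univ.filter (fun r : Fin q → Fin L =>
      δ * q * K < |∑ l, f b l (r l) - ∑ l, (∑ s, f b l s) / L|)).card : ℝ) * (δ ^ 2 * q) ≤
      (L : ℝ) ^ q := by
    intro b
    have := chebyshev_phases q L hL (f b) K δ hK (hf b) hδ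
    rwa [Nat.card_eq_fintype_card, Fintype.card_subtype] at this
  have h2 : (Finset.univ.filter (fun r : Fin q → Fin L => ¬ Good q L K δ f r)) ⊆
      Finset.univ.biUnion (fun b : W => Finset.univ.filter (fun r : Fin q → Fin L =>
        δ * q * K < |∑ l, f b l (r l) - ∑ l, (∑ s, f b l s) / L|)) := by
    intro r hr
    rw [Finset.mem_filter] at hr
    have h3 := hr.2
    simp only [Good, not_forall, not_le] at h3
    obtain ⟨b, hb⟩ := h3
    rw [Finset.mem_biUnion]
    exact ⟨b, Finset.mem_univ _, Finset.mem_filter.2 ⟨Finset.mem_univ _, hb⟩⟩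
  have h3 : ((Finset.univ.filter (fun r : Fin q → Fin L => ¬ Good q L K δ f r)).card : ℝ) ≤
      ∑ b : W, ((Finset.univ.filter (fun r : Fin q → Fin L =>
        δ * q * K < |∑ l, f b l (r l) - ∑ l, (∑ s, f b l s) / L|)).card : ℝ) := by
    exact_mod_cast (Finset.card_le_card h2).trans Finset.card_biUnion_le
  have hδq : 0 < δ ^ 2 * q := by positivity
  have hLq : (0 : ℝ) < (L : ℝ) ^ q := by positivity
  have h4 : ((Finset.univ.filter (fun r : Fin q → Fin L => ¬ Good q L K δ f r)).card : ℝ) *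
      (δ ^ 2 * q) ≤ Fintype.card W * (L : ℝ) ^ q := by
    calc _ ≤ (∑ b : W, ((Finset.univ.filter (fun r : Fin q → Fin L =>
        δ * q * K < |∑ l, f b l (r l) - ∑ l, (∑ s, f b l s) / L|)).card : ℝ)) *
          (δ ^ 2 * q) := by gcongr
      _ = ∑ b : W, ((Finset.univ.filter (fun r : Fin q → Fin L =>
        δ * q * K < |∑ l, f b l (r l) - ∑ l, (∑ s, f b l s) / L|)).card : ℝ) *
          (δ ^ 2 * q) := by rw [Finset.sum_mul]
      _ ≤ ∑ _b : W, (L : ℝ) ^ q := Finset.sum_le_sum (fun b _ => h1 b)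
      _ = Fintype.card W * (L : ℝ) ^ q := by simp
  by_contra hcon
  rw [not_le] at hcon
  have h5 : (L : ℝ) ^ q * (δ ^ 2 * q) < 4 *
      ((Finset.univ.filter (fun r : Fin q → Fin L => ¬ Good q L K δ f r)).card : ℝ) *
        (δ ^ 2 * q) := by gcongr
  have h6 : 4 * (Fintype.card W : ℝ) * (L : ℝ) ^ q ≤ δ ^ 2 * q * (L : ℝ) ^ q := by gcongr
  nlinarith

open Classical in
/-- One phase vector is good for a distinguished object and for at least half of the others. -/
theorem choose_phase {A W : Type*} [Fintype A] [Fintype W] (q L : ℕ) (hL : 0 < L)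
    (f₀ : W → Fin q → Fin L → ℝ)
    (f : A → W → Fin q → Fin L → ℝ) (K δ : ℝ) (hK : 0 ≤ K)
    (hf₀ : ∀ b l r, 0 ≤ f₀ b l r ∧ f₀ b l r ≤ K)
    (hf : ∀ a b l r, 0 ≤ f a b l r ∧ f a b l r ≤ K) (hδ : 0 < δ)
    (hq : 4 * (Fintype.card W : ℝ) ≤ δ ^ 2 * q) (hqpos : 0 < q) :
    ∃ r : Fin q → Fin L, Good q L K δ f₀ r ∧
      Fintype.card A ≤ 2 * (Finset.univ.filter (fun a : A => Good q L K δ (f a) r)).card := by
  have hne : Nonempty (Fin L) := ⟨⟨0, hL⟩⟩
  have hLq : (0 : ℝ) < (L : ℝ) ^ q := by positivity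
  have hcardR : (Fintype.card (Fin q → Fin L) : ℝ) = (L : ℝ) ^ q := by simp
  by_contra hcon
  push Not at hcon
  set R₀ := Finset.univ.filter (fun r : Fin q → Fin L => Good q L K δ f₀ r) with hR₀
  have h6 := bad_le q L hL f₀ K δ hK hf₀ hδ hq hqpos
  have h7 : (R₀.card : ℝ) +
      ((Finset.univ.filter (fun r : Fin q → Fin L => ¬ Good q L K δ f₀ r)).card : ℝ) =
      (L : ℝ) ^ q := by
    rw [← hcardR]
    exact_mod_cast Finset.card_filter_add_card_filter_not
      (s := (Finset.univ : Finset (Fin q → Fin L))) (fun r => Good q L K δ f₀ r)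
  have h8 : 3 / 4 * (L : ℝ) ^ q ≤ R₀.card := by linarith
  have h1 : ∀ r ∈ R₀, (Fintype.card A : ℝ) <
      2 * ((Finset.univ.filter (fun a => ¬ Good q L K δ (f a) r)).card : ℝ) := by
    intro r hr
    rw [hR₀, Finset.mem_filter] at hr
    have h2 := hcon r hr.2
    have h3 := Finset.card_filter_add_card_filter_not (s := (Finset.univ : Finset A))
      (fun a => Good q L K δ (f a) r)
    rw [Finset.card_univ] at h3
    exact_mod_cast (by omega : Fintype.card A <
      2 * (Finset.univ.filter (fun a => ¬ Good q L K δ (f a) r)).card)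
  have hR₀ne : R₀.Nonempty := by
    rw [← Finset.card_pos]
    have : (0 : ℝ) < R₀.card := by nlinarith
    exact_mod_cast this
  have h2 : (R₀.card : ℝ) * Fintype.card A <
      ∑ r ∈ R₀, 2 * ((Finset.univ.filter (fun a => ¬ Good q L K δ (f a) r)).card : ℝ) := by
    calc (R₀.card : ℝ) * Fintype.card A = ∑ _r ∈ R₀, (Fintype.card A : ℝ) := by simp
      _ < _ := Finset.sum_lt_sum_of_nonempty hR₀ne h1
  have h3 : ∑ r ∈ R₀, 2 * ((Finset.univ.filter (fun a => ¬ Good q L K δ (f a) r)).card : ℝ) ≤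
      ∑ r : Fin q → Fin L, 2 *
        ((Finset.univ.filter (fun a => ¬ Good q L K δ (f a) r)).card : ℝ) :=
    Finset.sum_le_sum_of_subset_of_nonneg (Finset.subset_univ _) (fun _ _ _ => by positivity)
  have h4 : ∑ r : Fin q → Fin L,
        ((Finset.univ.filter (fun a => ¬ Good q L K δ (f a) r)).card : ℝ) =
      ∑ a : A, ((Finset.univ.filter (fun r : Fin q → Fin L =>
        ¬ Good q L K δ (f a) r)).card : ℝ) := by
    simp only [Finset.card_filter]
    push_cast
    exact Finset.sum_comm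
  have h5 : ∑ a : A, 4 * ((Finset.univ.filter (fun r : Fin q → Fin L =>
      ¬ Good q L K δ (f a) r)).card : ℝ) ≤ Fintype.card A * (L : ℝ) ^ q := by
    calc _ ≤ ∑ _a : A, (L : ℝ) ^ q :=
          Finset.sum_le_sum (fun a _ => bad_le q L hL (f a) K δ hK (hf a) hδ hq hqpos)
      _ = Fintype.card A * (L : ℝ) ^ q := by simp
  rw [← Finset.mul_sum] at h5
  rw [← Finset.mul_sum Finset.univ, h4] at h3
  have hA' : (0 : ℝ) ≤ Fintype.card A := Nat.cast_nonneg _
  have h9 : 3 / 4 * (L : ℝ) ^ q * Fintype.card A ≤ R₀.card * Fintype.card A := by gcongr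
  have h10 : 0 ≤ (L : ℝ) ^ q * Fintype.card A := by positivity
  nlinarith

end Pool.Agent.Helper42.Weiss
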