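import Pool.Agent.Helper42.Weiss.UECore

open Set Filter Topology MeasureTheory

namespace Pool.Agent.Helper42.Weiss

variable {X : Type*}

/-- pure arithmetic: from the product inequality to the rate inequality -/
theorem ue_log {Ec N t w2 nn A NL sep : ℝ} {q K k L : ℕ} (hE : 1 ≤ Ec) (hN : 1 ≤ N) (ht : 0 < t)
    (hw2 : 0 ≤ w2) (hnn : 1 ≤ nn) (hA : 1 ≤ A) (hNL : 1 ≤ NL) (hsep : 1 ≤ sep)
    (h : Ec ^ q * N * t ^ k ≤ 2 * (1 + t * w2) ^ (q * K) * ((nn ^ L) ^ q * (nn ^ L) ^ q) *
      A ^ q * NL ^ (q * K) * sep) :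
    q * Real.log Ec + Real.log N + k * Real.log t ≤ Real.log 2 +
      (q * K : ℕ) * Real.log (1 + t * w2) + q * (2 * L * Real.log nn) + q * Real.log A +
      (q * K : ℕ) * Real.log NL + Real.log sep := by
  have h1 : 0 < 1 + t * w2 := by positivity
  have h2 := Real.log_le_log (by positivity) h
  rw [Real.log_mul (by positivity) (by positivity), Real.log_mul (by positivity) (by positivity),
    Real.log_mul (by positivity) (by positivity), Real.log_mul (by positivity) (by positivity),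
    Real.log_mul (by positivity) (by positivity), Real.log_mul (by positivity) (by positivity),
    Real.log_mul (by positivity) (by positivity), Real.log_mul (by positivity) (by positivity),
    Real.log_pow, Real.log_pow, Real.log_pow, Real.log_pow, Real.log_pow, Real.log_pow,
    Real.log_pow] at h2
  linarith

theorem ue_crit [MetricSpace X] [CompactSpace X] [MeasurableSpace X] [BorelSpace X]
    {F : X → X} (hF : Continuous F) (hd : IsEquivMetric (fun x y : X => dist x y))
    {μ : Measure X} [IsProbabilityMeasure μ] (hinv : MeasurePreserving F μ μ)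
    (huniq : ∀ ν : Measure X, IsProbabilityMeasure ν → MeasurePreserving F ν ν → ν = μ)
    {D : X → X → ℝ} (hD : IsEquivMetric D) :
    Nonempty X → ∀ ε' ε, 0 < ε' → ε' < ε → ∀ η > 0, ∃ N : ℕ, ∀ T₁ ≥ N, ∃ P : ℕ, 0 < P ∧
      (P : ℝ) ≤ (1 + η) * T₁ ∧ ∃ q₀ : ℕ, ∀ q ≥ q₀,
        (q : ℝ) * (Real.log (sepNum D F ε T₁) - η * T₁) ≤ Real.log (sepNum D F ε' (q * P)) := by
  classical
  intro hX ε' ε hε' hlt η hη
  have hε := hε'.trans hlt
  set ρ := (ε - ε') / 2 with hρdef
  have hρ : 0 < ρ := by rw [hρdef]; linarith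
  obtain ⟨δ', hδ', hcomp⟩ := unif_compare hD hd hρ
  obtain ⟨n, hn, κ, hκd, hκnull⟩ := exists_null_label hF μ hinv hδ'
  have hκ : ∀ x y, κ x = κ y → D x y < ρ := fun x y h => hcomp x y (hκd x y h)
  have hκε : ∀ x y, κ x = κ y → D x y < ε := fun x y h => (hκ x y h).trans_le (by
    rw [hρdef]; linarith)
  obtain ⟨c, hc0, hc, hcL⟩ := exists_names_rate F κ
  set η₁ := η / 8 with hη₁
  have hη₁pos : 0 < η₁ := by positivity
  obtain ⟨L, hL, hLN⟩ := hcL η₁ hη₁pos
  have hLr : (1 : ℝ) ≤ L := by exact_mod_cast hL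
  have hnr : (1 : ℝ) ≤ n := by exact_mod_cast hn
  have hlogn : 0 ≤ Real.log n := Real.log_nonneg hnr
  set w : ℝ := (Fintype.card (Fin L → Fin n) : ℝ) with hw
  have hw1 : 1 ≤ w := by
    rw [hw]
    have : 0 < Fintype.card (Fin L → Fin n) := by
      haveI : Nonempty (Fin n) := ⟨⟨0, hn⟩⟩
      exact Fintype.card_pos
    exact_mod_cast this
  set w2 : ℝ := (Fintype.card ((Fin L → Fin n) × (Fin L → Fin n)) : ℝ) with hw2
  have hw21 : 1 ≤ w2 := by
    rw [hw2]
    have : 0 < Fintype.card ((Fin L → Fin n) × (Fin L → Fin n)) := by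
      haveI : Nonempty (Fin n) := ⟨⟨0, hn⟩⟩
      exact Fintype.card_pos
    exact_mod_cast this
  -- the sparsity parameters
  set t : ℝ := min 1 (η₁ / w2) with ht
  have ht0 : 0 < t := lt_min one_pos (by positivity)
  have ht1 : t ≤ 1 := min_le_left _ _
  have htw : t * w2 ≤ η₁ := by
    have : t ≤ η₁ / w2 := min_le_right _ _
    rwa [le_div_iff₀ (by positivity)] at this
  have hlogt : Real.log (1 + t * w2) ≤ η₁ := by
    have h1 : Real.log (1 + t * w2) ≤ t * w2 := by
      have := Real.log_le_sub_one_of_pos (show 0 < 1 + t * w2 by positivity)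
      linarith
    linarith
  have hlt0 : Real.log t ≤ 0 := Real.log_nonpos ht0.le ht1
  set a : ℝ := η₁ / (1 - Real.log t) with ha
  have ha0 : 0 < a := div_pos hη₁pos (by linarith)
  have hat : a * (-Real.log t) ≤ η₁ := by
    rw [ha, div_mul_eq_mul_div, div_le_iff₀ (by linarith)]
    nlinarith
  set δ : ℝ := a / (4 * w) with hδ
  have hδ0 : 0 < δ := by positivity
  -- frequencies
  have hfr : ∀ b : Fin L → Fin n, ∃ N : ℕ, ∀ T ≥ N, ∀ x : X,
      |(Nat.card {t : Fin T // F^[t] x ∈ {x : X | ∀ s : Fin L, κ (F^[s] x) = b s}} : ℝ) -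
        (μ {x : X | ∀ s : Fin L, κ (F^[s] x) = b s}).toReal * T| ≤ δ * T :=
    fun b => uniform_freq hF hinv huniq (hκnull L b) hδ0
  choose Nb hNb using hfr
  set N0 := Finset.univ.sup Nb with hN0
  -- error terms
  have hlim : ∀ᶠ T : ℕ in atTop, 5 * L * Real.log n + L * w * Real.log ((T : ℝ) + 1) -
      Real.log t + Real.log 2 ≤ η / 2 * T := by
    have h1 : Tendsto (fun T : ℕ => Real.log ((T : ℝ) + 1) / T) atTop (𝓝 0) := by
      have h3 : Tendsto (fun x : ℝ => Real.log x / x) atTop (𝓝 0) := by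
        have := Real.isLittleO_log_id_atTop.tendsto_div_nhds_zero
        simpa using this
      have h4 : Tendsto (fun T : ℕ => Real.log ((T : ℝ) + 1) / ((T : ℝ) + 1)) atTop (𝓝 0) :=
        h3.comp (tendsto_atTop_add_const_right _ _ tendsto_natCast_atTop_atTop)
      have h5 : Tendsto (fun T : ℕ => ((T : ℝ) + 1) / T) atTop (𝓝 1) := by
        have h6 : Tendsto (fun T : ℕ => (1 : ℝ) + 1 / T) atTop (𝓝 (1 + 0)) :=
          tendsto_const_nhds.add tendsto_one_div_atTop_nhds_zero_nat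
        rw [add_zero] at h6
        refine h6.congr' ?_
        filter_upwards [eventually_gt_atTop 0] with T hT
        have : (T : ℝ) ≠ 0 := by positivity
        field_simp
      have h7 := h4.mul h5
      rw [zero_mul] at h7
      refine h7.congr' ?_
      filter_upwards [eventually_gt_atTop 0] with T hT
      have h8 : (T : ℝ) + 1 ≠ 0 := by positivity
      field_simp
    have h2 : Tendsto (fun T : ℕ => (5 * L * Real.log n - Real.log t + Real.log 2) / T)
        atTop (𝓝 0) := tendsto_const_div_atTop_nhds_zero_nat _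
    have h3 := (h1.const_mul (L * w)).add h2
    rw [mul_zero, add_zero] at h3
    have h4 := h3.eventually_le_const (show (0 : ℝ) < η / 2 by positivity)
    filter_upwards [h4, eventually_gt_atTop 0] with T hT hT0
    have hTr : (0 : ℝ) < T := by exact_mod_cast hT0
    have h5 : L * w * (Real.log ((T : ℝ) + 1) / T) +
        (5 * L * Real.log n - Real.log t + Real.log 2) / T =
        (5 * L * Real.log n + L * w * Real.log ((T : ℝ) + 1) - Real.log t + Real.log 2) / T := by
      field_simp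
      ring
    rw [h5, div_le_iff₀ hTr] at hT
    exact hT
  obtain ⟨N1, hN1⟩ := eventually_atTop.1 hlim
  refine ⟨max N1 ((N0 + 3) * L), fun T₁ hT₁ => ?_⟩
  have hT₁1 := hN1 T₁ ((le_max_left _ _).trans hT₁)
  have hT₁2 : (N0 + 3) * L ≤ T₁ := (le_max_right _ _).trans hT₁
  -- block numbers
  have hdiv : N0 + 3 ≤ T₁ / L := by
    rw [Nat.le_div_iff_mul_le hL]
    exact hT₁2
  obtain ⟨K, hK⟩ : ∃ K, T₁ / L = K + 1 := ⟨T₁ / L - 1, by omega⟩
  have hK0 : 0 < K := by omega
  have hKr : (0 : ℝ) < K := by exact_mod_cast hK0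
  have hPle : (K + 1) * L ≤ T₁ := by
    rw [← hK]
    exact Nat.div_mul_le_self T₁ L
  have hPlt : T₁ < (K + 1) * L + L := by
    have h1 := Nat.div_add_mod T₁ L
    have h2 := Nat.mod_lt T₁ hL
    rw [hK] at h1
    nlinarith
  have hKL : N0 ≤ K * L := by
    have h1 : N0 ≤ K := by omega
    nlinarith
  obtain ⟨q₀, hq₀⟩ := exists_nat_gt (4 * w / δ ^ 2)
  refine ⟨(K + 1) * L, by positivity, ?_, q₀ + 1, fun q hq => ?_⟩
  · have h1 : (((K + 1) * L : ℕ) : ℝ) ≤ T₁ := by exact_mod_cast hPle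
    have h2 : 0 ≤ η * (T₁ : ℝ) := by positivity
    linarith
  have hq0 : 0 < q := by omega
  have hqr : (1 : ℝ) ≤ q := by exact_mod_cast hq0
  obtain ⟨E, hE, hEsep⟩ := exists_sepNum hD F hε ((K + 1) * L)
  have hE1 : 1 ≤ E.card := by
    rw [hE]
    exact one_le_sepNum hD F hε _
  have hcheb : 4 * (Fintype.card (Fin L → Fin n) : ℝ) ≤ δ ^ 2 * q := by
    have h1 : 4 * w / δ ^ 2 < q := hq₀.trans_le (by exact_mod_cast (by omega : q₀ ≤ q))
    rw [div_lt_iff₀ (by positivity)] at h1
    rw [← hw]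
    linarith
  set k := ⌈a * q * K⌉₊ with hk
  have hk1 : a * q * K ≤ k := Nat.le_ceil _
  have hk2 : (k : ℝ) < a * q * K + 1 := Nat.ceil_lt_add_one (by positivity)
  have hcore := ue_core hD (F := F) hε' (ρ := ρ) (by rw [hρdef]; linarith)
    (by rw [hρdef]; linarith) hκ hL hK0 hq0
    (p := fun b => (μ {x : X | ∀ s : Fin L, κ (F^[s] x) = b s}).toReal) hδ0
    (by
      intro x b
      have h1 := hNb b (K * L) ((Finset.le_sup (Finset.mem_univ b)).trans hKL) x
      have h2 : ∀ t : Fin (K * L), (F^[t] x ∈ {x : X | ∀ s : Fin L, κ (F^[s] x) = b s}) ↔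
          blk F κ L (F^[t] x) = b := by
        intro t
        simp only [mem_setOf_eq, blk]
        exact ⟨fun h => funext h, fun h s => congrFun h s⟩
      simp only [h2] at h1
      exact h1) hcheb (Finset.card_pos.1 hE1) hEsep ht0 ht1 (k := k) (by
      rw [← hw, hδ]
      have : w * (4 * (a / (4 * w)) * q * K) = a * q * K := by
        field_simp
      rw [this]
      exact hk1)
  have hNq : (1 : ℝ) ≤ (names F κ (q * ((K + 1) * L))).card := by
    exact_mod_cast names_card_pos F κ _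
  have hNL1 : (1 : ℝ) ≤ (names F κ L).card := by exact_mod_cast names_card_pos F κ _
  have hs' : (1 : ℝ) ≤ sepNum D F ε' (q * ((K + 1) * L)) := by
    exact_mod_cast one_le_sepNum hD F hε' _
  have hA1 : (1 : ℝ) ≤ (n : ℝ) ^ L * ((n : ℝ) ^ L * (((K : ℝ) + 1) ^ n ^ L) ^ L) := by
    have h1 : (1 : ℝ) ≤ (n : ℝ) ^ L := one_le_pow₀ hnr
    have h2 : (1 : ℝ) ≤ (((K : ℝ) + 1) ^ n ^ L) ^ L := one_le_pow₀ (one_le_pow₀ (by linarith))
    exact one_le_mul_of_one_le_of_one_le h1 (one_le_mul_of_one_le_of_one_le h1 h2)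
  have hlog := ue_log (by exact_mod_cast hE1) hNq ht0 (by positivity) hnr hA1 hNL1 hs' hcore
  have hlogA : Real.log ((n : ℝ) ^ L * ((n : ℝ) ^ L * (((K : ℝ) + 1) ^ n ^ L) ^ L)) =
      2 * L * Real.log n + L * w * Real.log ((K : ℝ) + 1) := by
    rw [Real.log_mul (by positivity) (by positivity), Real.log_mul (by positivity)
      (by positivity), Real.log_pow, Real.log_pow, Real.log_pow, hw]
    simp only [Fintype.card_fun, Fintype.card_fin]
    push_cast
    ring
  rw [hlogA] at hlog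
  -- comparison of `T₁` and `(K + 1) L`
  have hsepT : Real.log (sepNum D F ε T₁) ≤ L * Real.log n + Real.log E.card := by
    obtain ⟨r, hr⟩ : ∃ r, T₁ = (K + 1) * L + r := ⟨T₁ - (K + 1) * L, by omega⟩
    have h1 := sepNum_add_le hD (F := F) hε hκε ((K + 1) * L) r
    rw [← hr, ← hE] at h1
    have h2 : n ^ r * E.card ≤ n ^ L * E.card :=
      Nat.mul_le_mul_right _ (Nat.pow_le_pow_right hn (by omega))
    have h3 : (sepNum D F ε T₁ : ℝ) ≤ (n : ℝ) ^ L * E.card := by exact_mod_cast h1.trans h2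
    have h4 : (1 : ℝ) ≤ sepNum D F ε T₁ := by exact_mod_cast one_le_sepNum hD F hε T₁
    have h5 := Real.log_le_log (by linarith) h3
    have hE1r : (1 : ℝ) ≤ E.card := by exact_mod_cast hE1
    rwa [Real.log_mul (by positivity) (by positivity), Real.log_pow] at h5
  have hcq := hc (q * ((K + 1) * L))
  -- final estimate
  have hKlog : Real.log ((K : ℝ) + 1) ≤ Real.log ((T₁ : ℝ) + 1) := by
    refine Real.log_le_log (by positivity) ?_
    have : K ≤ T₁ := by nlinarith
    have : (K : ℝ) ≤ T₁ := by exact_mod_cast this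
    linarith
  have hPr : ((K : ℝ) + 1) * L ≤ T₁ := by exact_mod_cast hPle
  have hlog2 : 0 ≤ Real.log 2 := Real.log_nonneg (by norm_num)
  have e1 : (k : ℝ) * (-Real.log t) ≤ q * (K * η₁) + (-Real.log t) := by
    have h1 : (k : ℝ) * (-Real.log t) ≤ (a * q * K + 1) * (-Real.log t) := by
      have : 0 ≤ -Real.log t := by linarith
      gcongr
    have h2 : (q : ℝ) * K * (a * (-Real.log t)) ≤ q * K * η₁ := by gcongr
    linarith
  have e2 : ((q * K : ℕ) : ℝ) * Real.log (1 + t * w2) ≤ q * (K * η₁) := by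
    push_cast
    have h1 : (q : ℝ) * K * Real.log (1 + t * w2) ≤ q * K * η₁ := by gcongr
    linarith
  have e3 : ((q * K : ℕ) : ℝ) * Real.log ((names F κ L).card : ℝ) ≤ q * (K * ((c + η₁) * L)) := by
    push_cast
    have h1 : (q : ℝ) * K * Real.log ((names F κ L).card : ℝ) ≤ q * K * ((c + η₁) * L) := by
      gcongr
    linarith
  have e4 : (q : ℝ) * (c * ((K + 1) * L)) ≤
      Real.log ((names F κ (q * ((K + 1) * L))).card : ℝ) := by
    have := hcq
    push_cast at this
    linarith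
  have e5 : (q : ℝ) * (L * w * Real.log ((K : ℝ) + 1)) ≤
      q * (L * w * Real.log ((T₁ : ℝ) + 1)) := by gcongr
  have e6 : (q : ℝ) * (5 * L * Real.log n + L * w * Real.log ((T₁ : ℝ) + 1) -
      Real.log t + Real.log 2) ≤ q * (η / 2 * T₁) := by gcongr
  have e7 : (q : ℝ) * Real.log (sepNum D F ε T₁) ≤
      q * (L * Real.log n + Real.log E.card) := by gcongr
  have e8 : (-Real.log t) + Real.log 2 ≤ q * (-Real.log t + Real.log 2) := by
    have : 0 ≤ -Real.log t + Real.log 2 := by linarith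
    nlinarith
  have e9 : (q : ℝ) * (K * η₁ + K * η₁ + K * (η₁ * L)) ≤ q * (3 * (η₁ * T₁)) := by
    have h1 : (K : ℝ) * 1 ≤ K * L := by gcongr
    have h2 : (K : ℝ) * L ≤ T₁ := by nlinarith
    have h3 : (K : ℝ) * η₁ ≤ η₁ * T₁ := by nlinarith
    have h4 : (K : ℝ) * (η₁ * L) ≤ η₁ * T₁ := by nlinarith
    have : K * η₁ + K * η₁ + K * (η₁ * L) ≤ 3 * (η₁ * T₁) := by linarith
    gcongr
  have e10 : (q : ℝ) * (c * (K * L)) ≤ q * (c * ((K + 1) * L)) := by
    have : (K : ℝ) * L ≤ (K + 1) * L := by nlinarith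
    gcongr
  have e11 : (q : ℝ) * (3 * (η₁ * T₁)) ≤ q * (η / 2 * T₁) := by
    rw [hη₁]
    have : 0 ≤ (q : ℝ) * (η * T₁) := by positivity
    nlinarith
  linarith

theorem weiss_of_ue [MetricSpace X] [CompactSpace X] [MeasurableSpace X] [BorelSpace X]
    {F : X → X} (hF : Continuous F) (hd : IsEquivMetric (fun x y : X => dist x y))
    {μ : Measure X} [IsProbabilityMeasure μ] (hinv : MeasurePreserving F μ μ)
    (huniq : ∀ ν : Measure X, IsProbabilityMeasure ν → MeasurePreserving F ν ν → ν = μ) :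
    (∀ D : X → X → ℝ, IsEquivMetric D → {ε : ℝ | 0 < ε ∧ ¬ HasSepRate D F ε}.Countable) ∧
      ∃ D : X → X → ℝ, IsEquivMetric D ∧ ∀ ε > 0, HasSepRate D F ε := by
  have h1 : ∀ D : X → X → ℝ, IsEquivMetric D →
      {ε : ℝ | 0 < ε ∧ ¬ HasSepRate D F ε}.Countable := fun D hD =>
    criterion hD F (ue_crit hF hd hinv huniq hD)
  exact ⟨h1, repair F hd (h1 _ hd)⟩

end Pool.Agent.Helper42.Weiss
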